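import Pool.Agent.Work.MP_3b24f6_gt.H0.Refl
import Pool.Agent.Work.MP_3b24f6_gt.Ball

/-!
Volume and perimeter of the balls of real hyperbolic space.
-/

set_option autoImplicit false

open MeasureTheory Set Filter Topology
open scoped ContDiff InnerProductSpace

namespace Pool.Agent.Work.MP_3b24f6_gt

noncomputable section

open BallP

variable {E : Type*} [NormedAddCommGroup E] [InnerProductSpace ℝ E] [FiniteDimensional ℝ E]
  [MeasurableSpace E] [BorelSpace E]

theorem mu0_ball [Nontrivial E] {s : ℝ} (hs : 0 < s) :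
    (mu0 : Measure E) (Metric.ball 0 s)
      = ENNReal.ofReal (sg E * ∫ x in (0 : ℝ)..s, x ^ (Module.finrank ℝ E - 1) / us x) := by
  unfold mu0
  rw [withDensity_apply _ Metric.isOpen_ball.measurableSet]
  have hc : Continuous (fun y : E => rho0 y) :=
    (contDiff_uu0 (E := E)).continuous.inv₀ fun y => (uu_pos0 y).ne'
  have hi : IntegrableOn (fun y : E => rho0 y) (Metric.ball 0 s) :=
    (hc.continuousOn.integrableOn_compact (isCompact_closedBall (0 : E) s)).mono_set
      Metric.ball_subset_closedBall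
  rw [← ofReal_integral_eq_lintegral_ofReal hi
    (Eventually.of_forall fun y => (inv_pos.mpr (uu_pos0 y)).le)]
  congr 1
  rw [show (∫ y in Metric.ball (0 : E) s, rho0 y)
    = ∫ y in Metric.ball (0 : E) s, (fun r : ℝ => (us r)⁻¹) ‖y‖ from rfl,
    integral_ball (E := E) (fun r : ℝ => (us r)⁻¹) hs.le]
  rfl

theorem mu0_ball_lt_top (s : ℝ) : (mu0 : Measure E) (Metric.ball 0 s) < ⊤ := by
  unfold mu0
  rw [withDensity_apply _ Metric.isOpen_ball.measurableSet]
  refine lt_of_le_of_lt (lintegral_mono (g := fun _ => 1) fun y => ?_) ?_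
  · rw [← ENNReal.ofReal_one]
    exact ENNReal.ofReal_le_ofReal (inv_le_one_of_one_le₀ (one_le_uu0 y))
  · rw [lintegral_one, Measure.restrict_apply_univ]
    exact Metric.isBounded_ball.measure_lt_top

/-- The perimeter of a ball is at least the area of the sphere. -/
theorem le_area0_ball [Nontrivial E] {s : ℝ} (hs : 0 < s) :
    ENNReal.ofReal (sg E * s ^ (Module.finrank ℝ E - 1)) ≤ area0 (Metric.ball (0 : E) s) := by
  have hn : 0 < Module.finrank ℝ E := Module.finrank_pos
  unfold area0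
  have hX : ContDiff ℝ ∞ (fun y : E => Fp s 1 (‖y‖ ^ 2) • y) :=
    ((contDiff_Fp hs 1).comp (contDiff_norm_sq ℝ)).smul contDiff_id
  have hXc : HasCompactSupport (fun y : E => Fp s 1 (‖y‖ ^ 2) • y) := by
    refine HasCompactSupport.intro (isCompact_closedBall (0 : E) (2 * s)) (fun y hy => ?_)
    have h1 : 2 * s < ‖y‖ := by simpa using hy
    rw [Fp, th_large hs (by nlinarith), zero_mul, zero_smul]
  have hX1 : ∀ y : E, mg0 y (Fp s 1 (‖y‖ ^ 2) • y) ≤ 1 := by
    intro y
    by_cases hy : y = 0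
    · rw [hy]
      simp [mg0]
    · have hy0 : 0 < ‖y‖ := norm_pos_iff.mpr hy
      have hu := us_sq ‖y‖
      have hu0 := us_pos ‖y‖
      have e1 : Fp s 1 (‖y‖ ^ 2) = th s (‖y‖ ^ 2) * (us ‖y‖ / ‖y‖) := by
        rw [Fp, pow_one, Real.sqrt_sq hy0.le, us]
      have e2 : mg0 y (Fp s 1 (‖y‖ ^ 2) • y) = th s (‖y‖ ^ 2) ^ 2 := by
        rw [mg0, norm_smul,
          real_inner_smul_right, real_inner_self_eq_norm_sq, e1, uu_eq_us, Real.norm_eq_abs,
          mul_pow, sq_abs]
        field_simp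
        rw [hu]
        ring
      rw [e2]
      exact pow_le_one₀ (th_nonneg _ _) (th_le_one _ _)
  refine le_trans ?_ (le_iSup _ ⟨_, hX, hXc, hX1⟩)
  refine ENNReal.ofReal_le_ofReal (le_of_eq ?_)
  have h1 : (fun z : E => rho0 z • Fp s 1 (‖z‖ ^ 2) • z) = fun z => Fp s 0 (‖z‖ ^ 2) • z := by
    funext z
    rw [smul_smul]
    congr 1
    have hz := us_pos ‖z‖
    rw [rho0, uu_eq_us, Fp, Fp]
    change (us ‖z‖)⁻¹ * (th s (‖z‖ ^ 2) * (us ‖z‖ ^ 1 / _)) = _
    field_simp
    try ring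
  simp only [h1]
  rw [flux_radial (contDiff_Fp hs 0) hs]
  congr 1
  rw [Fp, th_one hs (by nlinarith [sq_nonneg s]) (by nlinarith [sq_nonneg s]), Real.sqrt_sq hs.le]
  obtain ⟨k, hk⟩ : ∃ k, Module.finrank ℝ E = k + 1 := ⟨Module.finrank ℝ E - 1, by omega⟩
  rw [hk, Nat.add_sub_cancel]
  field_simp
  try ring

end

end Pool.Agent.Work.MP_3b24f6_gt
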