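import Pool.Agent.Work.MP_3b24f6_gt.H0.Greedy

/-!
Greedy lemma, second part.
-/

set_option autoImplicit false

open MeasureTheory Set Filter Topology Metric
open scoped InnerProductSpace ENNReal NNReal

namespace Pool.Agent.Work.MP_3b24f6_gt

noncomputable section

variable {E : Type*} [NormedAddCommGroup E] [InnerProductSpace ℝ E] [FiniteDimensional ℝ E]
  [MeasurableSpace E] [BorelSpace E]

theorem mu0_ballc_lt_top (c : E) (s : ℝ) : mu0 (ball c s) < ⊤ :=
  (mu0_le_volume _).trans_lt measure_ball_lt_top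

theorem mu0_lset {l : List (E × ℝ)} (hl : ∀ q ∈ l, 0 < q.2 ∧ ‖q.1‖ ^ 2 = 1 + q.2 ^ 2)
    {D : Set E} (hD : MeasurableSet D) : mu0 (lset l D) = mu0 D := by
  induction l with
  | nil => rfl
  | cons q l ih =>
    have ih' := ih fun q' hq' => hl q' (List.mem_cons_of_mem _ hq')
    obtain ⟨hb, hab⟩ := hl q List.mem_cons_self
    have h1 := mu0_pset_inter hab MeasurableSet.univ (fun _ _ _ => mem_univ _)
      (measurableSet_lset l hD)
    simp only [inter_univ, mem_univ, not_true, and_false, ofPred_false, measure_empty,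
      add_zero] at h1
    rw [← ih']
    exact h1

theorem mu0_inter_lset {l : List (E × ℝ)} (hl : ∀ q ∈ l, 0 < q.2 ∧ ‖q.1‖ ^ 2 = 1 + q.2 ^ 2)
    {D : Set E} (hD : MeasurableSet D) (R : ℝ) :
    mu0 (D ∩ closedBall 0 R) ≤ mu0 (lset l D ∩ closedBall 0 R) := by
  induction l with
  | nil => exact le_rfl
  | cons q l ih =>
    have ih' := ih fun q' hq' => hl q' (List.mem_cons_of_mem _ hq')
    obtain ⟨hb, hab⟩ := hl q List.mem_cons_self
    have h1 := mu0_pset_inter hab (S := closedBall (0 : E) R) measurableSet_closedBall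
      (fun y hy h => by
        rw [mem_closedBall_zero_iff] at h ⊢
        exact (norm_le_refl hab hb.le hy).trans h) (measurableSet_lset l hD)
    refine ih'.trans ?_
    show _ ≤ mu0 (pset q.1 q.2 (lset l D) ∩ closedBall 0 R)
    rw [h1]
    exact le_self_add

theorem greedy_set (hE : 1 ≤ Module.finrank ℝ E) {D : Set E} (hD : MeasurableSet D) {s : ℝ}
    (hDs : mu0 D = mu0 (ball (0 : E) s)) {ε : ℝ≥0∞} (hε : ε ≠ 0) :
    ∃ l : List (E × ℝ), (∀ q ∈ l, 0 < q.2 ∧ ‖q.1‖ ^ 2 = 1 + q.2 ^ 2) ∧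
      mu0 (ball 0 s \ lset l D) < ε := by
  by_contra hcon
  push Not at hcon
  set B : Set E := ball 0 s with hB
  have hBm : MeasurableSet B := measurableSet_ball
  have hBfin : mu0 B < ⊤ := mu0_ballc_lt_top _ _
  set V := {l : List (E × ℝ) // ∀ q ∈ l, 0 < q.2 ∧ ‖q.1‖ ^ 2 = 1 + q.2 ^ 2} with hV
  set I : ℝ≥0∞ := ⨅ l : V, mu0 (B \ lset l.1 D) with hI
  have hεI : ε ≤ I := le_iInf fun l => hcon l.1 l.2
  have hIfin : I ≠ ⊤ := by
    have h1 : I ≤ mu0 (B \ lset [] D) := iInf_le (fun l : V => mu0 (B \ lset l.1 D)) ⟨[], by simp⟩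
    exact (h1.trans_lt ((measure_mono sdiff_subset).trans_lt hBfin)).ne
  have hεfin : ε ≠ ⊤ := (hεI.trans_lt hIfin.lt_top).ne
  have hε2 : ε / 2 ≠ 0 := (ENNReal.half_pos hε).ne'
  have hε2' : ε / 2 ≠ ⊤ := (ENNReal.half_le_self.trans_lt hεfin.lt_top).ne
  -- tail
  obtain ⟨n, hn⟩ : ∃ n : ℕ, mu0 (D \ closedBall (0 : E) n) < ε / 2 := by
    have h1 : Tendsto (fun n : ℕ => mu0 (D \ closedBall (0 : E) n)) atTop
        (𝓝 (mu0 (⋂ n : ℕ, D \ closedBall (0 : E) n))) := by
      refine tendsto_measure_iInter_atTop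
        (fun n => (hD.diff measurableSet_closedBall).nullMeasurableSet) ?_
        ⟨0, ((measure_mono sdiff_subset).trans_lt (hDs.trans_lt hBfin)).ne⟩
      intro m n hmn
      exact sdiff_subset_sdiff_right (closedBall_subset_closedBall (by exact_mod_cast hmn))
    have h2 : ⋂ n : ℕ, D \ closedBall (0 : E) n = ∅ := by
      rw [eq_empty_iff_forall_notMem]
      intro x hx
      obtain ⟨n, hn⟩ := exists_nat_ge ‖x‖
      exact (mem_iInter.1 hx n).2 (by simpa using hn)
    rw [h2, measure_empty] at h1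
    obtain ⟨n, hn⟩ := (h1.eventually_lt_const (pos_iff_ne_zero.2 hε2)).exists
    exact ⟨n, hn⟩
  -- annulus
  obtain ⟨m, hm⟩ : ∃ m : ℕ, mu0 (B \ closedBall (0 : E) (s - 1 / (m + 1))) < ε / 2 := by
    have h1 : Tendsto (fun m : ℕ => mu0 (B \ closedBall (0 : E) (s - 1 / (m + 1)))) atTop
        (𝓝 (mu0 (⋂ m : ℕ, B \ closedBall (0 : E) (s - 1 / (m + 1))))) := by
      refine tendsto_measure_iInter_atTop
        (fun n => (hBm.diff measurableSet_closedBall).nullMeasurableSet) ?_
        ⟨0, ((measure_mono sdiff_subset).trans_lt hBfin).ne⟩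
      intro m n hmn
      refine sdiff_subset_sdiff_right (closedBall_subset_closedBall ?_)
      have : (1 : ℝ) / (n + 1) ≤ 1 / (m + 1) := by
        apply one_div_le_one_div_of_le (by positivity)
        have : (m : ℝ) ≤ n := by exact_mod_cast hmn
        linarith
      linarith
    have h2 : ⋂ m : ℕ, B \ closedBall (0 : E) (s - 1 / (m + 1)) = ∅ := by
      rw [eq_empty_iff_forall_notMem]
      intro x hx
      have hxB : ‖x‖ < s := by simpa [hB] using (mem_iInter.1 hx 0).1
      obtain ⟨m, hm⟩ := exists_nat_one_div_lt (sub_pos.2 hxB)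
      refine (mem_iInter.1 hx m).2 ?_
      rw [mem_closedBall_zero_iff]
      linarith
    rw [h2, measure_empty] at h1
    obtain ⟨m, hm⟩ := (h1.eventually_lt_const (pos_iff_ne_zero.2 hε2)).exists
    exact ⟨m, hm⟩
  set r := s - 1 / (m + 1 : ℝ) with hr
  have hrs : r < s := by
    have : (0 : ℝ) < 1 / (m + 1) := by positivity
    linarith
  obtain ⟨C, hC, hgain⟩ := exists_gain hE (R := (n : ℝ)) hrs
  set c : ℝ≥0∞ := (ε / 2) * (ε / 2) / (C + 1) with hc
  have hc0 : c ≠ 0 := by
    rw [hc]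
    exact (ENNReal.div_pos (mul_ne_zero hε2 hε2) (by simp [hC])).ne'
  have hlt : I < I + c := ENNReal.lt_add_right hIfin hc0
  obtain ⟨⟨l, hl⟩, hlc⟩ := iInf_lt_iff.1 (hI ▸ hlt)
  set D' := lset l D with hD'
  have hD'm : MeasurableSet D' := measurableSet_lset l hD
  have hD'B : mu0 D' = mu0 B := (mu0_lset hl hD).trans hDs
  have hsymm : mu0 (D' \ B) = mu0 (B \ D') := by
    have h1 := measure_inter_add_sdiff (μ := mu0) D' hBm
    have h2 := measure_inter_add_sdiff (μ := mu0) B hD'm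
    rw [inter_comm B D'] at h2
    have h3 : mu0 (D' ∩ B) ≠ ⊤ := ((measure_mono inter_subset_right).trans_lt hBfin).ne
    have h4 : mu0 (D' ∩ B) + mu0 (D' \ B) = mu0 (D' ∩ B) + mu0 (B \ D') := by
      rw [h1, h2, hD'B]
    exact (ENNReal.add_right_inj h3).1 h4
  have hεd : ε ≤ mu0 (B \ D') := hcon l hl
  set X : Set E := (B \ D') ∩ closedBall 0 r with hX
  set A : Set E := (D' \ B) ∩ closedBall 0 n with hA
  have hXm : MeasurableSet X := (hBm.diff hD'm).inter measurableSet_closedBall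
  have hAm : MeasurableSet A := (hD'm.diff hBm).inter measurableSet_closedBall
  have hX2 : ε / 2 ≤ mu0 X := by
    have h1 : ε ≤ mu0 X + ε / 2 := by
      refine hεd.trans ?_
      calc mu0 (B \ D') ≤ mu0 (X ∪ (B \ closedBall 0 r)) := by
            refine measure_mono fun x hx => ?_
            by_cases h : x ∈ closedBall (0 : E) r
            · exact Or.inl ⟨hx, h⟩
            · exact Or.inr ⟨hx.1, h⟩
        _ ≤ mu0 X + mu0 (B \ closedBall 0 r) := measure_union_le _ _
        _ ≤ _ := by gcongr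
    have h2 : ε / 2 + ε / 2 ≤ mu0 X + ε / 2 := by
      rw [ENNReal.add_halves]
      exact h1
    exact (ENNReal.add_le_add_iff_right hε2').1 h2
  have hA2 : ε / 2 ≤ mu0 A := by
    have h0 : mu0 (D' \ closedBall 0 n) ≤ mu0 (D \ closedBall 0 n) := by
      have h1 := measure_inter_add_sdiff (μ := mu0) D' (measurableSet_closedBall (x := (0 : E))
        (ε := (n : ℝ)))
      have h2 := measure_inter_add_sdiff (μ := mu0) D (measurableSet_closedBall (x := (0 : E))
        (ε := (n : ℝ)))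
      have h3 := mu0_inter_lset hl hD n
      have h4 : mu0 (D ∩ closedBall (0 : E) n) ≠ ⊤ :=
        ((measure_mono inter_subset_left).trans_lt (hDs.trans_lt hBfin)).ne
      have h5 : mu0 (D ∩ closedBall (0 : E) n) + mu0 (D' \ closedBall 0 n) ≤
          mu0 (D ∩ closedBall (0 : E) n) + mu0 (D \ closedBall 0 n) := by
        rw [h2, hDs, ← hD'B, ← h1]
        gcongr
      exact (ENNReal.add_le_add_iff_left h4).1 h5
    have h1 : ε ≤ mu0 A + ε / 2 := by
      rw [← hsymm] at hεd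
      refine hεd.trans ?_
      calc mu0 (D' \ B) ≤ mu0 (A ∪ (D' \ closedBall 0 n)) := by
            refine measure_mono fun x hx => ?_
            by_cases h : x ∈ closedBall (0 : E) n
            · exact Or.inl ⟨hx, h⟩
            · exact Or.inr ⟨hx.1, h⟩
        _ ≤ mu0 A + mu0 (D' \ closedBall 0 n) := measure_union_le _ _
        _ ≤ _ := by
            gcongr
            exact h0.trans hn.le
    have h2 : ε / 2 + ε / 2 ≤ mu0 A + ε / 2 := by
      rw [ENNReal.add_halves]
      exact h1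
    exact (ENNReal.add_le_add_iff_right hε2').1 h2
  obtain ⟨a, b, hab, hb, hg⟩ := hgain X A hXm hAm inter_subset_right
    (fun x hx => ⟨hx.2, hx.1.2⟩)
  have hcen : ∀ y, ell a b y ≤ 0 → refl a b y ∈ B → y ∈ B := fun y hy h => by
    rw [hB, mem_ball_zero_iff] at h ⊢
    exact (norm_le_refl hab hb.le hy).trans_lt h
  have hP := mu0_pset_inter hab hBm hcen hD'm
  set G : Set E := {y | ell a b y < 0 ∧ (y ∈ B ∧ y ∉ D') ∧ (refl a b y ∈ D' ∧ refl a b y ∉ B)}
    with hG
  have hXG : {x | x ∈ X ∧ refl a b x ∈ A} ⊆ G := by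
    rintro x ⟨hx, hx2⟩
    refine ⟨?_, hx.1, hx2.1⟩
    by_contra h
    push Not at h
    have h1 : ell a b (refl a b x) ≤ 0 := by
      rw [ell_refl hab]
      linarith
    exact hx2.1.2 (hcen _ h1 (by rw [refl_refl hab]; exact hx.1.1))
  have hcG : c ≤ mu0 G := by
    refine ENNReal.div_le_of_le_mul ?_
    calc (ε / 2) * (ε / 2) ≤ mu0 X * mu0 A := by gcongr
      _ ≤ C * mu0 {x | x ∈ X ∧ refl a b x ∈ A} := hg
      _ ≤ (C + 1) * mu0 G := by
          gcongr
          exact le_self_add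
      _ = mu0 G * (C + 1) := mul_comm _ _
  have hnew : mu0 (B \ pset a b D') + mu0 G = mu0 (B \ D') := by
    have hPm := measurableSet_pset a b hD'm
    have h1 := measure_inter_add_sdiff (μ := mu0) B hPm
    have h2 := measure_inter_add_sdiff (μ := mu0) B hD'm
    rw [inter_comm B] at h1 h2
    rw [hP] at h1
    have h3 : mu0 (D' ∩ B) ≠ ⊤ := ((measure_mono inter_subset_right).trans_lt hBfin).ne
    have h4 : mu0 (D' ∩ B) + (mu0 (B \ pset a b D') + mu0 G) =
        mu0 (D' ∩ B) + mu0 (B \ D') := by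
      rw [h2, ← h1]
      ring
    exact (ENNReal.add_right_inj h3).1 h4
  have hnewI : I ≤ mu0 (B \ pset a b D') :=
    iInf_le (fun l : V => mu0 (B \ lset l.1 D)) ⟨(a, b) :: l, by
      intro q hq
      rcases List.mem_cons.1 hq with rfl | hq
      · exact ⟨hb, hab⟩
      · exact hl q hq⟩
  have hfinal : I + c ≤ mu0 (B \ D') := by
    rw [← hnew]
    exact add_le_add hnewI hcG
  exact absurd hlc (not_lt.2 hfinal)

/-- Greedy lemma. -/
theorem greedy (hE : 1 ≤ Module.finrank ℝ E) {D : Set E} (hD : MeasurableSet D) {s : ℝ}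
    (hDs : mu0 D = mu0 (ball (0 : E) s)) {e : ℝ} (he : 0 < e) :
    ∃ l : List (E × ℝ), (∀ q ∈ l, 0 < q.2 ∧ ‖q.1‖ ^ 2 = 1 + q.2 ^ 2) ∧
      ∫ y, |l.foldr (fun q f => pol q.1 q.2 f) (D.indicator 1) y -
        (ball (0 : E) s).indicator 1 y| ∂mu0 ≤ e := by
  obtain ⟨l, hl, h1⟩ := greedy_set hE hD hDs (ε := ENNReal.ofReal (e / 2))
    (by simp [he])
  refine ⟨l, hl, ?_⟩
  set B : Set E := ball 0 s with hB
  have hBm : MeasurableSet B := measurableSet_ball
  have hBfin : mu0 B < ⊤ := mu0_ballc_lt_top _ _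
  set D' := lset l D with hD'
  have hD'm : MeasurableSet D' := measurableSet_lset l hD
  have hD'B : mu0 D' = mu0 B := (mu0_lset hl hD).trans hDs
  have hsymm : mu0 (D' \ B) = mu0 (B \ D') := by
    have h1 := measure_inter_add_sdiff (μ := mu0) D' hBm
    have h2 := measure_inter_add_sdiff (μ := mu0) B hD'm
    rw [inter_comm B D'] at h2
    have h3 : mu0 (D' ∩ B) ≠ ⊤ := ((measure_mono inter_subset_right).trans_lt hBfin).ne
    have h4 : mu0 (D' ∩ B) + mu0 (D' \ B) = mu0 (D' ∩ B) + mu0 (B \ D') := by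
      rw [h1, h2, hD'B]
    exact (ENNReal.add_right_inj h3).1 h4
  rw [lpol_indicator, ← hD']
  have h2 : ∀ y, |D'.indicator (1 : E → ℝ) y - B.indicator 1 y| =
      (D' \ B).indicator 1 y + (B \ D').indicator 1 y := by
    intro y
    by_cases a1 : y ∈ D' <;> by_cases a2 : y ∈ B <;> simp [a1, a2]
  simp only [h2]
  have hf1 : mu0 (D' \ B) ≠ ⊤ := by
    rw [hsymm]
    exact ((measure_mono sdiff_subset).trans_lt hBfin).ne
  have hf2 : mu0 (B \ D') ≠ ⊤ := ((measure_mono sdiff_subset).trans_lt hBfin).ne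
  rw [integral_add ((integrable_indicator_iff (hD'm.diff hBm)).2 (by
      exact (integrableOn_const hf1 : IntegrableOn (fun _ : E => (1 : ℝ)) _ mu0)))
    ((integrable_indicator_iff (hBm.diff hD'm)).2 (by
      exact (integrableOn_const hf2 : IntegrableOn (fun _ : E => (1 : ℝ)) _ mu0))),
    integral_indicator_one (hD'm.diff hBm), integral_indicator_one (hBm.diff hD'm),
    measureReal_def, measureReal_def, hsymm]
  have h3 : (mu0 (B \ D')).toReal ≤ e / 2 := ENNReal.toReal_le_of_le_ofReal (by positivity) h1.le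
  linarith

end

end Pool.Agent.Work.MP_3b24f6_gt
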