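import Pool.Agent.Work.MP_3b24f6_gt.H0.Final
import Pool.Agent.Work.MP_3b24f6_gt.H0.Ball
import Pool.Agent.Work.MP_3b24f6_gt.H0.GreedyB

/-!
# The isoperimetric inequality in real hyperbolic space
-/

set_option autoImplicit false
set_option linter.unusedSectionVars false

open MeasureTheory Set Filter Topology
open scoped ContDiff InnerProductSpace

namespace Pool.Agent.Work.MP_3b24f6_gt

noncomputable section

variable {E : Type*} [NormedAddCommGroup E] [InnerProductSpace ℝ E] [FiniteDimensional ℝ E]
  [MeasurableSpace E] [BorelSpace E]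

/-- Balls are optimal for isoperimetry in real hyperbolic space. -/
theorem isoperimetric0 (hE : 1 ≤ Module.finrank ℝ E) {D : Set E} (hD : MeasurableSet D) {s : ℝ}
    (hs : 0 < s) (hv : (mu0 : Measure E) D = (mu0 : Measure E) (Metric.ball 0 s)) :
    area0 (Metric.ball (0 : E) s) ≤ area0 D := by
  refine isoperimetric0_of (fun {D} hD {s} _ hv {e} he => ?_) mu0_ball_lt_top hD hs hv
  obtain ⟨l, hl, h⟩ := greedy hE hD hv he
  exact ⟨l, hl, h⟩

end

end Pool.Agent.Work.MP_3b24f6_gt
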