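import Pool.Agent.Work.MP_3b24f6_gt.ModelB

set_option autoImplicit false

open MeasureTheory Set Filter Topology
open scoped ContDiff InnerProductSpace

/-! Real hyperbolic space in the chart `y = sinh r • ω`: common definitions of block D. -/

namespace Pool.Agent.Work.MP_3b24f6_gt

noncomputable section

variable {E : Type*} [NormedAddCommGroup E] [InnerProductSpace ℝ E] [FiniteDimensional ℝ E]

/-- Squared hyperbolic length of the tangent vector `v` at `y`. -/
def mg0 (y v : E) : ℝ := ‖v‖ ^ 2 - ⟪y, v⟫_ℝ ^ 2 / uu y ^ 2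

/-- Hyperbolic length of the covector `ξ` at `y`. -/
def an0 (y ξ : E) : ℝ := Real.sqrt (‖ξ‖ ^ 2 + ⟪y, ξ⟫_ℝ ^ 2)

/-- `cosh` of the hyperbolic distance. -/
def chd0 (x y : E) : ℝ := uu x * uu y - ⟪x, y⟫_ℝ

/-- Density of the hyperbolic volume. -/
def rho0 (y : E) : ℝ := (uu y)⁻¹

section measure
variable [MeasurableSpace E] [BorelSpace E]

/-- Hyperbolic volume. -/
def mu0 : Measure E := volume.withDensity (fun y => ENNReal.ofReal (rho0 y))

/-- Total variation of `f` (hyperbolic). -/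
def TV0 (f : E → ℝ) : ℝ := ∫ y, an0 y (gradient f y) ∂(mu0 : Measure E)

/-- Hyperbolic perimeter (De Giorgi) of a measurable set. -/
def area0 (D : Set E) : ENNReal :=
  ⨆ X : {X : E → E // ContDiff ℝ ∞ X ∧ HasCompactSupport X ∧ ∀ y, mg0 y (X y) ≤ 1},
    ENNReal.ofReal (∫ y in D, divE (fun z => rho0 z • X.1 z) y)

end measure

/-- The functional `ℓ` whose sign decides on which side of the mirror `y` lies. -/
def ell (a : E) (b : ℝ) (y : E) : ℝ := ⟪a, y⟫_ℝ - b * uu y

/-- The hyperbolic reflection with unit normal `(a, b)`, `‖a‖ ^ 2 = 1 + b ^ 2`. -/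
def refl (a : E) (b : ℝ) (y : E) : E := y - (2 * ell a b y) • a

/-- Two-point symmetrisation (polarisation) of `f`; for `0 ≤ b` the origin is on the side
`ell a b ≤ 0`. -/
def pol (a : E) (b : ℝ) (f : E → ℝ) (y : E) : ℝ :=
  if ell a b y ≤ 0 then max (f y) (f (refl a b y)) else min (f y) (f (refl a b y))

/-- `f` is `L`-Lipschitz for the chord distance `√(2 (cosh d - 1))`. -/
def Lip0 (L : ℝ) (f : E → ℝ) : Prop := ∀ x y, (f x - f y) ^ 2 ≤ L ^ 2 * (2 * (chd0 x y - 1))

end

end Pool.Agent.Work.MP_3b24f6_gt
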