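import Pool.Agent.Work.MP_3b24f6_gt.H0.Moll

/-!
# Lipschitz test functions, flux and lower semicontinuity, w = 0
-/

set_option autoImplicit false
set_option linter.unusedSectionVars false

open MeasureTheory Set Filter Topology
open scoped ContDiff InnerProductSpace

namespace Pool.Agent.Work.MP_3b24f6_gt

noncomputable section

variable {E : Type*} [NormedAddCommGroup E] [InnerProductSpace ℝ E] [FiniteDimensional ℝ E]

/-- Lipschitz functions with compact support. -/
def LC (f : E → ℝ) : Prop := (∃ K, LipschitzWith K f) ∧ HasCompactSupport f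

theorem LC.continuous {f : E → ℝ} (hf : LC f) : Continuous f := by
  obtain ⟨⟨K, hK⟩, -⟩ := hf
  exact hK.continuous

theorem lc_of_smooth {f : E → ℝ} (hf : ContDiff ℝ ∞ f) (hc : HasCompactSupport f) : LC f := by
  refine ⟨?_, hc⟩
  exact ContDiff.lipschitzWith_of_hasCompactSupport hc hf (by simp)

namespace Mol0

open Mol

theorem norm_gradient (f : E → ℝ) (y : E) : ‖gradient f y‖ = ‖fderiv ℝ f y‖ := by
  simp [gradient]

theorem norm_gradient_le {f : E → ℝ} {K : NNReal} (hf : LipschitzWith K f) (y : E) :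
    ‖gradient f y‖ ≤ K := by
  rw [norm_gradient]
  exact norm_fderiv_le_of_lipschitz ℝ hf

theorem gradient_zero_off {f : E → ℝ} {y : E} (hy : y ∉ tsupport f) : gradient f y = 0 := by
  rw [gradient, fderiv_of_notMem_tsupport ℝ hy, map_zero]

theorem an0_zero (y : E) : an0 y (0 : E) = 0 := by simp [an0]

theorem an0_le (y ξ : E) : an0 y ξ ≤ uu y * ‖ξ‖ := by
  rw [an0]
  apply Real.sqrt_le_iff.mpr
  refine ⟨mul_nonneg (uu_pos y).le (norm_nonneg _), ?_⟩
  rw [mul_pow, uu_sq]
  have h2 : ⟪y, ξ⟫_ℝ ^ 2 ≤ ‖y‖ ^ 2 * ‖ξ‖ ^ 2 := by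
    rw [← mul_pow]
    exact sq_le_sq' (by linarith [neg_le_of_abs_le (abs_real_inner_le_norm y ξ)])
      (real_inner_le_norm y ξ)
  linarith

theorem rho0_mul_an0_le (y ξ : E) : rho0 y * an0 y ξ ≤ ‖ξ‖ := by
  have h := an0_le y ξ
  have h0 := uu_pos y
  rw [rho0, inv_mul_le_iff₀ h0]
  exact h

section measure

variable [MeasurableSpace E] [BorelSpace E]

theorem measurable_gradient (f : E → ℝ) : Measurable (fun y => gradient f y) := by
  have h1 : Measurable (fderiv ℝ f) := measurable_fderiv ℝ f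
  exact ((InnerProductSpace.toDual ℝ E).symm.continuous.measurable).comp h1

theorem measurable_an0_gradient (f : E → ℝ) : Measurable (fun y => an0 y (gradient f y)) :=
  (continuous_an0.measurable).comp (measurable_id.prodMk (measurable_gradient f))

theorem integrable_rho_an0 {f : E → ℝ} (hf : LC f) :
    Integrable (fun y => rho0 y * an0 y (gradient f y)) := by
  obtain ⟨⟨K, hK⟩, hc⟩ := hf
  have hm : MeasurableSet (tsupport f) := (isClosed_tsupport f).measurableSet
  refine Integrable.mono' (g := (tsupport f).indicator fun _ => (K : ℝ)) ?_ ?_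
    (Eventually.of_forall fun y => ?_)
  · exact (continuous_const.continuousOn.integrableOn_compact hc).integrable_indicator hm
  · exact (contDiff_rho0.continuous.measurable.mul (measurable_an0_gradient f)).aestronglyMeasurable
  · rw [Real.norm_eq_abs, abs_of_nonneg (mul_nonneg (rho0_pos y).le (an0_nonneg _ _))]
    by_cases hy : y ∈ tsupport f
    · rw [indicator_of_mem hy]
      exact (rho0_mul_an0_le y _).trans (norm_gradient_le hK y)
    · rw [indicator_of_notMem hy, gradient_zero_off hy, an0_zero, mul_zero]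

theorem integrable_an0 {f : E → ℝ} (hf : LC f) :
    Integrable (fun y => an0 y (gradient f y)) (mu0 : Measure E) :=
  integrable_mu0_iff.mpr (integrable_rho_an0 hf)

theorem TV0_eq (f : E → ℝ) : TV0 f = ∫ y, rho0 y * an0 y (gradient f y) := by
  rw [TV0, int_mu0]

theorem _root_.Pool.Agent.Work.MP_3b24f6_gt.LC.integrable {f : E → ℝ} (hf : LC f) : Integrable f (mu0 : Measure E) := by
  rw [integrable_mu0_iff]
  exact (contDiff_rho0.continuous.mul hf.continuous).integrable_of_hasCompactSupport
    hf.2.mul_left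

/-- Integration by parts for Lipschitz functions. -/
theorem integral_mul_divE_lip {f : E → ℝ} (hf : LC f) {Z : E → E} (hZ : ContDiff ℝ ∞ Z)
    (hZc : HasCompactSupport Z) : ∫ y, f y * divE Z y = -∫ y, fderiv ℝ f y (Z y) := by
  have hfc : Continuous f := hf.continuous
  obtain ⟨⟨K, hK⟩, hc⟩ := hf
  set b := stdOrthonormalBasis ℝ E with hb
  have hZi : ∀ i, ContDiff ℝ ∞ (fun x => ⟪b i, Z x⟫_ℝ) := fun i => contDiff_const.inner ℝ hZ
  have hZic : ∀ i, HasCompactSupport (fun x => ⟪b i, Z x⟫_ℝ) := fun i =>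
    hZc.comp_left (g := fun v => ⟪b i, v⟫_ℝ) (inner_zero_right _)
  have hdZ : ∀ i x, fderiv ℝ (fun x => ⟪b i, Z x⟫_ℝ) x (b i) = ⟪b i, fderiv ℝ Z x (b i)⟫_ℝ := by
    intro i x
    have h1 : HasFDerivAt (fun x => ⟪b i, Z x⟫_ℝ) ((innerSL ℝ (b i)).comp (fderiv ℝ Z x)) x :=
      (innerSL ℝ (b i)).hasFDerivAt.comp x (hZ.differentiable (by simp) x).hasFDerivAt
    rw [h1.fderiv]
    rfl
  -- one coordinate
  have key : ∀ i, ∫ y, f y * ⟪b i, fderiv ℝ Z y (b i)⟫_ℝ
      = ∫ y, -(fderiv ℝ f y (b i) * ⟪b i, Z y⟫_ℝ) := by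
    intro i
    obtain ⟨D, hD⟩ := ContDiff.lipschitzWith_of_hasCompactSupport (hZic i) (hZi i) (by simp)
    have h := hK.integral_lineDeriv_mul_eq (μ := (volume : Measure E)) hD (hZic i) (-(b i))
    rw [neg_neg] at h
    have e1 : ∫ y, f y * ⟪b i, fderiv ℝ Z y (b i)⟫_ℝ
        = ∫ x, lineDeriv ℝ (fun x => ⟪b i, Z x⟫_ℝ) x (b i) * f x := by
      refine integral_congr_ae (Eventually.of_forall fun y => ?_)
      simp only
      rw [((hZi i).differentiable (by simp) y).lineDeriv_eq_fderiv, hdZ i y, mul_comm]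
    have e2 : ∫ x, lineDeriv ℝ f x (-(b i)) * ⟪b i, Z x⟫_ℝ
        = ∫ y, -(fderiv ℝ f y (b i) * ⟪b i, Z y⟫_ℝ) := by
      refine integral_congr_ae ?_
      filter_upwards [hK.ae_differentiableAt (μ := (volume : Measure E))] with y hy
      rw [hy.lineDeriv_eq_fderiv, map_neg]
      ring
    rw [e1, ← h, e2]
  have i1 : ∀ i, Integrable (fun y => f y * ⟪b i, fderiv ℝ Z y (b i)⟫_ℝ) := by
    intro i
    refine Continuous.integrable_of_hasCompactSupport ?_ hc.mul_right
    exact hfc.mul (continuous_const.inner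
      ((hZ.continuous_fderiv (by simp)).clm_apply continuous_const))
  have i2 : ∀ i, Integrable (fun y => -(fderiv ℝ f y (b i) * ⟪b i, Z y⟫_ℝ)) := by
    intro i
    have hZint : Integrable (fun y => ⟪b i, Z y⟫_ℝ) :=
      (hZi i).continuous.integrable_of_hasCompactSupport (hZic i)
    refine (hZint.bdd_mul (c := (K : ℝ)) ?_ (Eventually.of_forall fun y => ?_)).neg
    · exact ((measurable_fderiv_apply_const ℝ f (b i))).aestronglyMeasurable
    · refine (ContinuousLinearMap.le_opNorm _ _).trans ?_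
      rw [b.orthonormal.1 i, mul_one]
      exact norm_fderiv_le_of_lipschitz ℝ hK
  have e3 : ∀ y, f y * divE Z y = ∑ i, f y * ⟪b i, fderiv ℝ Z y (b i)⟫_ℝ := by
    intro y
    rw [dl_divE_eq_sum, Finset.mul_sum]
  have e4 : ∀ y, -(fderiv ℝ f y (Z y)) = ∑ i, -(fderiv ℝ f y (b i) * ⟪b i, Z y⟫_ℝ) := by
    intro y
    rw [Finset.sum_neg_distrib]
    congr 1
    conv_lhs => rw [← b.sum_repr (Z y)]
    rw [map_sum]
    refine Finset.sum_congr rfl fun i _ => ?_
    rw [map_smul, b.repr_apply_apply, smul_eq_mul, mul_comm]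
  simp_rw [e3]
  rw [integral_finsetSum _ (fun i _ => i1 i), ← integral_neg]
  simp_rw [e4]
  rw [integral_finsetSum _ (fun i _ => i2 i)]
  exact Finset.sum_congr rfl fun i _ => key i

/-- The flux of a Lipschitz function against an admissible field. -/
theorem flux0_le {f : E → ℝ} (hf : LC f) {X : E → E} (hX : Adm0 X) :
    ∫ y, f y * divE (fun z => rho0 z • X z) y ≤ TV0 f := by
  obtain ⟨hX1, hX2, hX3⟩ := hX
  have hfc : Continuous f := hf.continuous
  rw [integral_mul_divE_lip hf (contDiff_rhoX0 hX1) (hcs_rhoX0 hX2), ← integral_neg, TV0_eq]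
  have i1 := integrable_rho_an0 hf
  have i2 : Integrable (fun y => -fderiv ℝ f y (rho0 y • X y)) := by
    obtain ⟨⟨K, hK⟩, hc⟩ := hf
    have hXi : Integrable (fun y => ‖rho0 y • X y‖) :=
      (contDiff_rhoX0 hX1).continuous.norm.integrable_of_hasCompactSupport (hcs_rhoX0 hX2).norm
    refine (Integrable.mono' (hXi.const_mul K) ?_ (Eventually.of_forall fun y => ?_)).neg
    · have h1 : Measurable (fun y => gradient f y) := measurable_gradient f
      have h2 : Measurable (fun y => rho0 y • X y) := (contDiff_rhoX0 hX1).continuous.measurable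
      have h3 : (fun y => fderiv ℝ f y (rho0 y • X y))
          = fun y => ⟪gradient f y, rho0 y • X y⟫_ℝ := by
        funext y
        rw [AreaAux.inner_gradient]
      rw [h3]
      exact (h1.inner h2).aestronglyMeasurable
    · refine (ContinuousLinearMap.le_opNorm _ _).trans ?_
      exact mul_le_mul_of_nonneg_right (norm_fderiv_le_of_lipschitz ℝ hK) (norm_nonneg _)
  refine integral_mono i2 i1 fun y => ?_
  simp only
  rw [map_smul, smul_eq_mul, ← mul_neg]
  refine mul_le_mul_of_nonneg_left ?_ (rho0_pos y).le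
  rw [← AreaAux.inner_gradient]
  have h1 := abs_inner_le0 y (X y) (gradient f y)
  have h2 : Real.sqrt (mg0 y (X y)) ≤ 1 := Real.sqrt_le_one.mpr (hX3 y)
  have h3 : an0 y (gradient f y) * Real.sqrt (mg0 y (X y)) ≤ an0 y (gradient f y) :=
    mul_le_of_le_one_right (an0_nonneg y _) h2
  have h4 := neg_le_abs (⟪gradient f y, X y⟫_ℝ)
  linarith

theorem integrable_sub_ind' {D : Set E} (hD : MeasurableSet D)
    (hfin : (mu0 : Measure E) D ≠ ⊤) {f : E → ℝ} (hf : LC f) :
    Integrable (fun y => |f y - D.indicator (fun _ => (1 : ℝ)) y|) (mu0 : Measure E) := by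
  have i2 : Integrable (D.indicator (fun _ => (1 : ℝ))) (mu0 : Measure E) :=
    (integrable_indicator_iff hD).mpr (integrableOn_const hfin)
  exact (hf.integrable.sub i2).abs

end measure

end Mol0

open Mol Mol0

variable [MeasurableSpace E] [BorelSpace E]

/-- Lower semicontinuity. -/
theorem area0_le_of_approx {D : Set E} (hD : MeasurableSet D) (hfin : (mu0 : Measure E) D ≠ ⊤)
    {A : ℝ} (h : ∀ ε, 0 < ε → ∃ f : E → ℝ, LC f ∧ TV0 f ≤ A + ε ∧
      ∫ y, |f y - D.indicator (fun _ => (1 : ℝ)) y| ∂(mu0 : Measure E) ≤ ε) :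
    area0 D ≤ ENNReal.ofReal A := by
  unfold area0
  refine iSup_le fun X => ENNReal.ofReal_le_ofReal ?_
  obtain ⟨X, hX⟩ := X
  have hadm : Adm0 X := hX
  simp only
  obtain ⟨hX1, hX2, hX3⟩ := hX
  set d := divE (fun z => rho0 z • X z) with hd
  have hdc : Continuous d := Mol.continuous_divE (contDiff_rhoX0 hX1)
  have hds : HasCompactSupport d := Mol.hcs_divE (hcs_rhoX0 hX2)
  -- bound of d / rho
  obtain ⟨S, hS⟩ : ∃ S, ∀ y, |d y| ≤ S * rho0 y := by
    have hc : Continuous (fun y => d y / rho0 y) :=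
      hdc.div contDiff_rho0.continuous fun y => (rho0_pos y).ne'
    have hs : HasCompactSupport (fun y => d y / rho0 y) := by
      refine hds.mono fun y hy => ?_
      rw [Function.mem_support] at hy ⊢
      intro h0
      apply hy
      rw [h0, zero_div]
    obtain ⟨S, hS⟩ := hc.bounded_above_of_compact_support hs
    refine ⟨S, fun y => ?_⟩
    have := hS y
    rw [Real.norm_eq_abs, abs_div, abs_of_pos (rho0_pos y), div_le_iff₀ (rho0_pos y)] at this
    exact this
  have hS0 : 0 ≤ S := by
    have h1 := hS 0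
    have h2 := rho0_pos (0 : E)
    have h3 := abs_nonneg (d 0)
    by_contra hneg
    push Not at hneg
    nlinarith
  have hdi : Integrable d := hdc.integrable_of_hasCompactSupport hds
  have key : ∀ ε, 0 < ε → ∫ y in D, d y ≤ A + (1 + S) * ε := by
    intro ε hε
    obtain ⟨f, hf, hTV, hL⟩ := h ε hε
    have h1 := flux0_le hf hadm
    rw [← hd] at h1
    have i1 : Integrable (fun y => f y * d y) :=
      (hf.continuous.mul hdc).integrable_of_hasCompactSupport hds.mul_left
    have i2 : Integrable (fun y => rho0 y * |f y - D.indicator (fun _ => (1 : ℝ)) y|) :=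
      integrable_mu0_iff.mp (integrable_sub_ind' hD hfin hf)
    rw [int_mu0] at hL
    have h2 : ∫ y in D, d y ≤ ∫ y, (f y * d y
        + S * (rho0 y * |f y - D.indicator (fun _ => (1 : ℝ)) y|)) := by
      rw [← integral_indicator hD]
      refine integral_mono (hdi.indicator hD) (i1.add (i2.const_mul S)) fun y => ?_
      simp only
      have h3 := hS y
      by_cases hy : y ∈ D
      · simp only [indicator_of_mem hy]
        have h4 : (1 - f y) * d y ≤ |f y - 1| * |d y| := by
          rw [abs_sub_comm, ← abs_mul]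
          exact le_abs_self _
        have h5 : |f y - 1| * |d y| ≤ |f y - 1| * (S * rho0 y) :=
          mul_le_mul_of_nonneg_left h3 (abs_nonneg _)
        linarith
      · simp only [indicator_of_notMem hy, sub_zero]
        have h4 : -(f y * d y) ≤ |f y| * |d y| := by
          rw [← abs_mul]
          exact neg_le_abs _
        have h5 : |f y| * |d y| ≤ |f y| * (S * rho0 y) :=
          mul_le_mul_of_nonneg_left h3 (abs_nonneg _)
        linarith
    rw [integral_add i1 (i2.const_mul S), integral_const_mul] at h2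
    have h6 : S * ∫ y, rho0 y * |f y - D.indicator (fun _ => (1 : ℝ)) y| ≤ S * ε :=
      mul_le_mul_of_nonneg_left hL hS0
    linarith
  refine le_of_forall_pos_le_add fun δ hδ => ?_
  have h7 := key (δ / (1 + S)) (by positivity)
  have h8 : (1 + S) * (δ / (1 + S)) = δ := by
    field_simp
  linarith

end

end Pool.Agent.Work.MP_3b24f6_gt
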