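import Pool.Agent.Work.MP_3b24f6_gt.H0.Model

/-!
Reflections of real hyperbolic space in the chart `y = sinh r • ω`.
-/

set_option autoImplicit false

open MeasureTheory Set Filter Topology
open scoped ContDiff InnerProductSpace

namespace Pool.Agent.Work.MP_3b24f6_gt

noncomputable section

section inner
variable {E : Type*} [NormedAddCommGroup E] [InnerProductSpace ℝ E]

omit [InnerProductSpace ℝ E] in
theorem uu_sq0 (y : E) : uu y ^ 2 = 1 + ‖y‖ ^ 2 := Real.sq_sqrt (by positivity)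

omit [InnerProductSpace ℝ E] in
theorem uu_pos0 (y : E) : 0 < uu y := Real.sqrt_pos.mpr (by positivity)

omit [InnerProductSpace ℝ E] in
theorem norm_lt_uu0 (y : E) : ‖y‖ < uu y := by
  have h1 := uu_sq0 y
  have h2 := uu_pos0 y
  nlinarith [norm_nonneg y]

omit [InnerProductSpace ℝ E] in
theorem one_le_uu0 (y : E) : 1 ≤ uu y := by
  have h1 := uu_sq0 y
  have h2 := uu_pos0 y
  nlinarith [sq_nonneg ‖y‖]

theorem contDiff_uu0 : ContDiff ℝ ∞ (uu : E → ℝ) := by
  unfold uu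
  refine ContDiff.sqrt (contDiff_const.add (contDiff_norm_sq ℝ)) fun y => ?_
  positivity

theorem hasFDerivAt_uu0 (y : E) : HasFDerivAt (uu : E → ℝ) ((uu y)⁻¹ • innerSL ℝ y) y := by
  have h1 : HasFDerivAt (fun z : E => 1 + ‖z‖ ^ 2) (2 • innerSL ℝ y) y := by
    simpa using (hasStrictFDerivAt_norm_sq y).hasFDerivAt.const_add (1 : ℝ)
  have h2 := h1.sqrt (by positivity : (1 + ‖y‖ ^ 2) ≠ 0)
  refine h2.congr_fderiv ?_
  have h3 := (uu_pos0 y).ne'
  ext v
  simp only [ContinuousLinearMap.smul_apply, smul_eq_mul, nsmul_eq_mul,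
    innerSL_apply_apply, ContinuousLinearMap.coe_smul', Pi.smul_apply]
  change 1 / (2 * uu y) * (((2 : ℕ) : ℝ) * ⟪y, v⟫_ℝ) = (uu y)⁻¹ * ⟪y, v⟫_ℝ
  push_cast
  field_simp

/-- derivative of `ell` -/
def dell (a : E) (b : ℝ) (y : E) : E →L[ℝ] ℝ := innerSL ℝ a - (b * (uu y)⁻¹) • innerSL ℝ y

theorem dell_apply (a : E) (b : ℝ) (y v : E) :
    dell a b y v = ⟪a, v⟫_ℝ - b * (⟪y, v⟫_ℝ / uu y) := by
  simp only [dell, ContinuousLinearMap.sub_apply, ContinuousLinearMap.smul_apply,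
    innerSL_apply_apply, smul_eq_mul]
  ring

theorem hasFDerivAt_ell (a : E) (b : ℝ) (y : E) : HasFDerivAt (ell a b) (dell a b y) y := by
  have h1 : HasFDerivAt (fun z : E => ⟪a, z⟫_ℝ) (innerSL ℝ a) y := (innerSL ℝ a).hasFDerivAt
  have h2 := (hasFDerivAt_uu0 y).const_mul b
  refine (h1.sub h2).congr_fderiv ?_
  rw [dell, smul_smul]

theorem contDiff_ell (a : E) (b : ℝ) : ContDiff ℝ ∞ (ell a b) :=
  (innerSL ℝ a).contDiff.sub (contDiff_const.mul contDiff_uu0)

theorem continuous_ell (a : E) (b : ℝ) : Continuous (ell a b) := (contDiff_ell a b).continuous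

theorem contDiff_refl (a : E) (b : ℝ) : ContDiff ℝ ∞ (refl a b) :=
  contDiff_id.sub ((contDiff_const.mul (contDiff_ell a b)).smul contDiff_const)

theorem continuous_refl (a : E) (b : ℝ) : Continuous (refl a b) := (contDiff_refl a b).continuous

/-- derivative of `refl` -/
def drefl (a : E) (b : ℝ) (y : E) : E →L[ℝ] E :=
  ContinuousLinearMap.id ℝ E - (2 • dell a b y).smulRight a

theorem drefl_apply (a : E) (b : ℝ) (y v : E) :
    drefl a b y v = v - (2 * dell a b y v) • a := by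
  simp [drefl, two_mul, add_smul]

theorem hasFDerivAt_refl (a : E) (b : ℝ) (y : E) : HasFDerivAt (refl a b) (drefl a b y) y := by
  have h1 := ((hasFDerivAt_ell a b y).const_mul 2).smul_const a
  refine ((hasFDerivAt_id y).sub h1).congr_fderiv ?_
  ext v
  simp [drefl_apply, smul_smul]

theorem inner_refl (a : E) (b : ℝ) (y v : E) :
    ⟪refl a b y, v⟫_ℝ = ⟪y, v⟫_ℝ - 2 * ell a b y * ⟪a, v⟫_ℝ := by
  rw [refl, inner_sub_left, real_inner_smul_left]

theorem inner_refl_right (a : E) (b : ℝ) (y v : E) :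
    ⟪v, refl a b y⟫_ℝ = ⟪v, y⟫_ℝ - 2 * ell a b y * ⟪v, a⟫_ℝ := by
  rw [refl, inner_sub_right, real_inner_smul_right]

variable {a : E} {b : ℝ} (hab : ‖a‖ ^ 2 = 1 + b ^ 2)
include hab

theorem uu_sub_pos (y : E) : 0 < uu y - 2 * b * ell a b y := by
  have h1 := uu_sq0 y
  have h2 := uu_pos0 y
  have h3 := norm_lt_uu0 y
  have h4 := abs_real_inner_le_norm a y
  have h5 : |b| < ‖a‖ := by
    refine abs_lt_of_sq_lt_sq ?_ (norm_nonneg a)
    rw [hab]; linarith
  have h6 : b * ⟪a, y⟫_ℝ ≤ |b| * (‖a‖ * ‖y‖) := by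
    refine le_trans (le_abs_self _) ?_
    rw [abs_mul]
    exact mul_le_mul_of_nonneg_left h4 (abs_nonneg b)
  have h7 : |b| * (‖a‖ * ‖y‖) ≤ |b| * ‖a‖ * uu y := by
    rw [mul_assoc]
    exact mul_le_mul_of_nonneg_left (mul_le_mul_of_nonneg_left h3.le (norm_nonneg a)) (abs_nonneg b)
  have h8 : 2 * (|b| * ‖a‖) < 1 + 2 * b ^ 2 := by
    have h9 : |b| ^ 2 = b ^ 2 := sq_abs b
    nlinarith [sq_nonneg (‖a‖ - |b|), sq_pos_of_pos (sub_pos.mpr h5)]
  have h10 : ell a b y = ⟪a, y⟫_ℝ - b * uu y := rfl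
  rw [h10]
  nlinarith

theorem uu_refl (y : E) : uu (refl a b y) = uu y - 2 * b * ell a b y := by
  have h1 := uu_sq0 y
  have h2 := uu_sub_pos hab y
  have h3 : ‖refl a b y‖ ^ 2 = ‖y‖ ^ 2 - 4 * ell a b y * ⟪a, y⟫_ℝ
      + 4 * ell a b y ^ 2 * ‖a‖ ^ 2 := by
    rw [← real_inner_self_eq_norm_sq, inner_refl, inner_refl_right, inner_refl_right,
      real_inner_self_eq_norm_sq, real_inner_self_eq_norm_sq, real_inner_comm a y]
    ring
  have h4 : uu (refl a b y) ^ 2 = (uu y - 2 * b * ell a b y) ^ 2 := by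
    rw [uu_sq0, h3, hab]
    have h5 : ⟪a, y⟫_ℝ = ell a b y + b * uu y := by rw [ell]; ring
    rw [h5]
    nlinarith
  exact (sq_eq_sq₀ (uu_pos0 _).le h2.le).mp h4

theorem ell_refl (y : E) : ell a b (refl a b y) = -ell a b y := by
  have h1 : ell a b (refl a b y) = ⟪a, refl a b y⟫_ℝ - b * uu (refl a b y) := rfl
  rw [h1, uu_refl hab, inner_refl_right, real_inner_self_eq_norm_sq, hab]
  have h5 : ⟪a, y⟫_ℝ = ell a b y + b * uu y := by rw [ell]; ring
  rw [h5]
  ring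

theorem refl_refl (y : E) : refl a b (refl a b y) = y := by
  conv_lhs => rw [refl, ell_refl hab]
  rw [refl]
  module

theorem refl_involutive : Function.Involutive (refl a b) := refl_refl hab

theorem chd0_refl_right (x y : E) :
    chd0 x (refl a b y) = chd0 x y + 2 * ell a b x * ell a b y := by
  have h5 : ⟪x, a⟫_ℝ = ell a b x + b * uu x := by rw [real_inner_comm, ell]; ring
  rw [chd0, uu_refl hab, inner_refl_right, h5, chd0]
  ring

omit hab in
theorem chd0_comm (x y : E) : chd0 x y = chd0 y x := by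
  rw [chd0, chd0, real_inner_comm, mul_comm]

theorem chd0_refl_left (x y : E) :
    chd0 (refl a b x) y = chd0 x y + 2 * ell a b x * ell a b y := by
  rw [chd0_comm, chd0_refl_right hab, chd0_comm]
  ring

theorem chd0_refl_refl (x y : E) : chd0 (refl a b x) (refl a b y) = chd0 x y := by
  rw [chd0_refl_right hab, chd0_refl_left hab, ell_refl hab]
  ring

/-- The differential of `uu ∘ refl`. -/
theorem inner_refl_drefl (y v : E) :
    ⟪refl a b y, drefl a b y v⟫_ℝ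
      = uu (refl a b y) * (⟪y, v⟫_ℝ / uu y - 2 * b * dell a b y v) := by
  have hu := uu_pos0 y
  have h1 := uu_sq0 y
  have h5 : ⟪a, y⟫_ℝ = ell a b y + b * uu y := by rw [ell]; ring
  have h6 : ⟪a, v⟫_ℝ = dell a b y v + b * (⟪y, v⟫_ℝ / uu y) := by rw [dell_apply]; ring
  have h7 : ⟪y, v⟫_ℝ = uu y * (⟪y, v⟫_ℝ / uu y) := by field_simp
  rw [drefl_apply, inner_sub_right, real_inner_smul_right, inner_refl, inner_refl,
    real_inner_comm a y, real_inner_self_eq_norm_sq, hab, uu_refl hab, h6, h5]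
  set q := ⟪y, v⟫_ℝ / uu y with hq
  rw [h7]
  ring

theorem mg0_refl (y v : E) : mg0 (refl a b y) (drefl a b y v) = mg0 y v := by
  have hu := uu_pos0 y
  have hu2 := uu_pos0 (refl a b y)
  rw [mg0, mg0, inner_refl_drefl hab, mul_pow, mul_div_cancel_left₀ _ (by positivity)]
  have h6 : ⟪a, v⟫_ℝ = dell a b y v + b * (⟪y, v⟫_ℝ / uu y) := by rw [dell_apply]; ring
  have h8 : ‖drefl a b y v‖ ^ 2 = ‖v‖ ^ 2 - 4 * dell a b y v * ⟪a, v⟫_ℝ
      + 4 * dell a b y v ^ 2 * ‖a‖ ^ 2 := by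
    rw [← real_inner_self_eq_norm_sq, drefl_apply]
    simp only [inner_sub_left, inner_sub_right, real_inner_smul_left, real_inner_smul_right]
    rw [real_inner_self_eq_norm_sq, real_inner_self_eq_norm_sq, real_inner_comm a v]
    ring
  rw [h8, hab, h6, ← div_pow]
  ring

end inner

section findim
variable {E : Type*} [NormedAddCommGroup E] [InnerProductSpace ℝ E] [FiniteDimensional ℝ E]

theorem inner_gradient0 (f : E → ℝ) (z v : E) : ⟪gradient f z, v⟫_ℝ = fderiv ℝ f z v := by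
  unfold gradient
  exact InnerProductSpace.toDual_symm_apply

theorem gradient_comp_refl (a : E) (b : ℝ) (f : E → ℝ) (y : E)
    (hf : DifferentiableAt ℝ f (refl a b y)) :
    gradient (fun z => f (refl a b z)) y
      = gradient f (refl a b y)
        - (2 * ⟪a, gradient f (refl a b y)⟫_ℝ) • (a - (b / uu y) • y) := by
  refine ext_inner_right ℝ fun v => ?_
  rw [inner_gradient0]
  have h3 : HasFDerivAt (fun z => f (refl a b z))
      ((fderiv ℝ f (refl a b y)).comp (drefl a b y)) y :=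
    hf.hasFDerivAt.comp y (hasFDerivAt_refl a b y)
  rw [h3.fderiv, ContinuousLinearMap.comp_apply, ← inner_gradient0, drefl_apply, dell_apply]
  simp only [inner_sub_left, inner_sub_right, real_inner_smul_left, real_inner_smul_right]
  rw [real_inner_comm (gradient f (refl a b y)) a]
  ring

theorem an0_refl {a : E} {b : ℝ} (hab : ‖a‖ ^ 2 = 1 + b ^ 2) (f : E → ℝ) (y : E)
    (hf : DifferentiableAt ℝ f (refl a b y)) :
    an0 y (gradient (fun z => f (refl a b z)) y)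
      = an0 (refl a b y) (gradient f (refl a b y)) := by
  rw [gradient_comp_refl a b f y hf, an0, an0]
  congr 1
  set η := gradient f (refl a b y) with hη
  have hu := uu_pos0 y
  have h1 := uu_sq0 y
  have h5 : ⟪a, y⟫_ℝ = ell a b y + b * uu y := by rw [ell]; ring
  have h9 : ‖y‖ ^ 2 = uu y ^ 2 - 1 := by rw [h1]; ring
  have e1 : ‖η - (2 * ⟪a, η⟫_ℝ) • (a - (b / uu y) • y)‖ ^ 2
      = ‖η‖ ^ 2 - 4 * ⟪a, η⟫_ℝ * (⟪a, η⟫_ℝ - b / uu y * ⟪y, η⟫_ℝ)
        + 4 * ⟪a, η⟫_ℝ ^ 2 * (‖a‖ ^ 2 - 2 * (b / uu y) * ⟪a, y⟫_ℝ + (b / uu y) ^ 2 * ‖y‖ ^ 2) := by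
    rw [← real_inner_self_eq_norm_sq]
    simp only [inner_sub_left, inner_sub_right, real_inner_smul_left, real_inner_smul_right]
    rw [real_inner_self_eq_norm_sq, real_inner_self_eq_norm_sq, real_inner_self_eq_norm_sq,
      real_inner_comm a η, real_inner_comm y η, real_inner_comm a y]
    ring
  have e2 : ⟪y, η - (2 * ⟪a, η⟫_ℝ) • (a - (b / uu y) • y)⟫_ℝ
      = ⟪y, η⟫_ℝ - 2 * ⟪a, η⟫_ℝ * (⟪a, y⟫_ℝ - b / uu y * ‖y‖ ^ 2) := by
    simp only [inner_sub_right, real_inner_smul_right, real_inner_self_eq_norm_sq,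
      real_inner_comm a y]
  rw [e1, e2, inner_refl, hab, h5, h9]
  field_simp
  ring

theorem det_drefl {a : E} {b : ℝ} (hab : ‖a‖ ^ 2 = 1 + b ^ 2) (y : E) :
    (drefl a b y).det = -(uu (refl a b y) / uu y) := by
  have e : ((drefl a b y : E →L[ℝ] E) : E →ₗ[ℝ] E)
      = LinearMap.transvection (((-2 : ℝ) • dell a b y : E →L[ℝ] ℝ) : E →ₗ[ℝ] ℝ) a := by
    refine LinearMap.ext fun v => ?_
    rw [LinearMap.transvection.apply]
    simp only [ContinuousLinearMap.coe_coe, drefl_apply, ContinuousLinearMap.smul_apply,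
      smul_eq_mul]
    module
  show LinearMap.det _ = _
  rw [e, LinearMap.transvection.det]
  simp only [ContinuousLinearMap.coe_coe, ContinuousLinearMap.smul_apply, smul_eq_mul, dell_apply,
    real_inner_self_eq_norm_sq, hab, uu_refl hab, real_inner_comm a y]
  have hu := uu_pos0 y
  have h5 : ⟪a, y⟫_ℝ = ell a b y + b * uu y := by rw [ell]; ring
  rw [h5]
  field_simp
  ring

variable [MeasurableSpace E] [BorelSpace E]

theorem measurable_rho0 : Measurable (fun y : E => ENNReal.ofReal (rho0 y)) :=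
  ENNReal.measurable_ofReal.comp (contDiff_uu0 (E := E)).continuous.measurable.inv

theorem mp_refl {a : E} {b : ℝ} (hab : ‖a‖ ^ 2 = 1 + b ^ 2) :
    MeasurePreserving (refl a b) (mu0 : Measure E) mu0 := by
  have hmeas : Measurable (refl a b) := (continuous_refl a b).measurable
  refine ⟨hmeas, ?_⟩
  ext s hs
  rw [Measure.map_apply hmeas hs]
  unfold mu0
  rw [withDensity_apply _ (hmeas hs), withDensity_apply _ hs]
  have himg : refl a b '' (refl a b ⁻¹' s) = s :=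
    image_preimage_eq s fun x => ⟨refl a b x, refl_refl hab x⟩
  have hinj : InjOn (refl a b) (refl a b ⁻¹' s) := fun a' _ b' _ h => by
    rw [← refl_refl hab a', ← refl_refl hab b', h]
  conv_rhs => rw [← himg]
  rw [lintegral_image_eq_lintegral_abs_det_fderiv_mul volume (hmeas hs)
    (fun x _ => (hasFDerivAt_refl a b x).hasFDerivWithinAt) hinj]
  refine lintegral_congr fun y => ?_
  rw [← ENNReal.ofReal_mul (abs_nonneg _), det_drefl hab, abs_neg, rho0, rho0]
  have h1 := uu_pos0 y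
  have h2 := uu_pos0 (refl a b y)
  rw [abs_of_pos (by positivity)]
  congr 1
  field_simp

end findim

section swap
variable {E : Type*} [NormedAddCommGroup E] [InnerProductSpace ℝ E]

theorem two_chd0 (x y : E) : 2 * (chd0 x y - 1) = ‖x - y‖ ^ 2 - (uu x - uu y) ^ 2 := by
  have h1 := uu_sq0 x
  have h2 := uu_sq0 y
  rw [chd0, norm_sub_sq_real]
  linarith

theorem one_lt_chd0 {x y : E} (h : x ≠ y) : 1 < chd0 x y := by
  have h1 := uu_sq0 x
  have h2 := uu_sq0 y
  have hx := uu_pos0 x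
  have hy := uu_pos0 y
  have h3 : 0 < ‖x - y‖ ^ 2 := by
    have := norm_pos_iff.mpr (sub_ne_zero.mpr h)
    positivity
  have h4 : ‖x - y‖ ^ 2 = ‖x‖ ^ 2 - 2 * ⟪x, y⟫_ℝ + ‖y‖ ^ 2 := norm_sub_sq_real x y
  have h5 : ⟪x, y⟫_ℝ ^ 2 ≤ ‖x‖ ^ 2 * ‖y‖ ^ 2 := by
    rw [← mul_pow, ← sq_abs]
    exact pow_le_pow_left₀ (abs_nonneg _) (abs_real_inner_le_norm x y) 2
  -- `(1 + ⟪x, y⟫)² < (uu x uu y)²`
  have h6 : (1 + ⟪x, y⟫_ℝ) ^ 2 < (uu x * uu y) ^ 2 := by
    rw [mul_pow, h1, h2]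
    nlinarith
  have h7 : 1 + ⟪x, y⟫_ℝ < uu x * uu y := lt_of_pow_lt_pow_left₀ 2 (by positivity) h6
  rw [chd0]
  linarith

theorem one_le_chd0 (x y : E) : 1 ≤ chd0 x y := by
  by_cases h : x = y
  · have h1 := uu_sq0 x
    rw [← h, chd0, real_inner_self_eq_norm_sq]
    nlinarith
  · exact (one_lt_chd0 h).le

/-- The reflection exchanging `x` and `y`. -/
theorem refl_swap {x y : E} (h : x ≠ y) (hxy : ‖x‖ ≤ ‖y‖) {D : ℝ}
    (hD : D = Real.sqrt (2 * (chd0 x y - 1))) :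
    0 < D ∧ ‖D⁻¹ • (y - x)‖ ^ 2 = 1 + ((uu y - uu x) / D) ^ 2 ∧ 0 ≤ (uu y - uu x) / D ∧
      refl (D⁻¹ • (y - x)) ((uu y - uu x) / D) x = y ∧
      ell (D⁻¹ • (y - x)) ((uu y - uu x) / D) x < 0 := by
  have h1 := one_lt_chd0 h
  have hD0 : 0 < D := by rw [hD]; exact Real.sqrt_pos.mpr (by linarith)
  have hD2 : D ^ 2 = 2 * (chd0 x y - 1) := by rw [hD]; exact Real.sq_sqrt (by linarith)
  have hu1 := uu_sq0 x
  have hu2 := uu_sq0 y
  have hx := uu_pos0 x
  have hy := uu_pos0 y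
  have hle : uu x ≤ uu y := by
    have : ‖x‖ ^ 2 ≤ ‖y‖ ^ 2 := pow_le_pow_left₀ (norm_nonneg x) hxy 2
    nlinarith
  have h2 := two_chd0 x y
  have hell : ell (D⁻¹ • (y - x)) ((uu y - uu x) / D) x = -(D / 2) := by
    rw [ell, real_inner_smul_left, inner_sub_left, real_inner_self_eq_norm_sq]
    have h3 : chd0 x y = uu x * uu y - ⟪x, y⟫_ℝ := rfl
    rw [real_inner_comm]
    field_simp
    nlinarith
  refine ⟨hD0, ?_, div_nonneg (by linarith) hD0.le, ?_, ?_⟩
  · rw [norm_smul, mul_pow, Real.norm_eq_abs, sq_abs, norm_sub_rev]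
    field_simp
    rw [hD2, h2]
    ring
  · rw [refl, hell, smul_smul]
    have h4 : 2 * -(D / 2) * D⁻¹ = -1 := by field_simp
    rw [h4]
    module
  · rw [hell]; linarith

end swap

end

end Pool.Agent.Work.MP_3b24f6_gt
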