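import Pool.Agent.Work.MP_3b24f6_gt.H0.PolL
import Pool.Agent.Work.MP_3b24f6_gt.H0.Lsc
import Pool.Agent.Work.MP_3b24f6_gt.H0.Refl

/-!
# The isoperimetric inequality in real hyperbolic space
-/

set_option autoImplicit false
set_option linter.unusedSectionVars false

open MeasureTheory Set Filter Topology
open scoped ContDiff InnerProductSpace

namespace Pool.Agent.Work.MP_3b24f6_gt

noncomputable section

open PS Mol0

variable {E : Type*} [NormedAddCommGroup E] [InnerProductSpace ℝ E] [FiniteDimensional ℝ E]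
  [MeasurableSpace E] [BorelSpace E]

theorem refl_fix {a : E} {b : ℝ} {y : E} (hy : ell a b y = 0) : refl a b y = y := by
  rw [refl, hy]; simp

theorem isRefl {a : E} {b : ℝ} (hab : ‖a‖ ^ 2 = 1 + b ^ 2) : IsRefl (refl a b) (ell a b) where
  smooth := contDiff_refl a b
  cont := continuous_ell a b
  inv := refl_refl hab
  l_s := ell_refl hab
  fix := fun _ hy => refl_fix hy
  mp := mp_refl hab
  an := fun f y hf => an0_refl hab f y (hf.differentiable (by simp)).differentiableAt

theorem isoperimetric0_of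
    (greedy : ∀ {D : Set E}, MeasurableSet D → ∀ {s : ℝ}, 0 < s →
      (mu0 : Measure E) D = (mu0 : Measure E) (Metric.ball 0 s) → ∀ {e : ℝ}, 0 < e →
      ∃ L : List (E × ℝ), (∀ q ∈ L, 0 < q.2 ∧ ‖q.1‖ ^ 2 = 1 + q.2 ^ 2) ∧
        ∫ y, |L.foldr (fun q f => pol q.1 q.2 f) (D.indicator (fun _ => (1 : ℝ))) y
          - (Metric.ball (0 : E) s).indicator (fun _ => (1 : ℝ)) y| ∂(mu0 : Measure E) ≤ e)
    (hball : ∀ s : ℝ, (mu0 : Measure E) (Metric.ball 0 s) < ⊤)
    {D : Set E} (hD : MeasurableSet D) {s : ℝ} (hs : 0 < s)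
    (hv : (mu0 : Measure E) D = (mu0 : Measure E) (Metric.ball 0 s)) :
    area0 (Metric.ball (0 : E) s) ≤ area0 D := by
  by_cases harea : area0 D = ⊤
  · rw [harea]; exact le_top
  rw [← ENNReal.ofReal_toReal harea]
  have hBfin : (mu0 : Measure E) (Metric.ball (0 : E) s) ≠ ⊤ := (hball s).ne
  have hDfin : (mu0 : Measure E) D ≠ ⊤ := by rw [hv]; exact hBfin
  refine area0_le_of_approx Metric.isOpen_ball.measurableSet hBfin fun ε hε => ?_
  obtain ⟨L, hL, hLe⟩ := greedy hD hs hv (e := ε / 3) (by positivity)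
  obtain ⟨f, hf, hf1, hfT, hfL⟩ := exists_approx0 hD hDfin harea (ε := ε / 3) (by positivity)
  have hgm : Measurable (D.indicator (fun _ => (1 : ℝ))) := measurable_const.indicator hD
  have hgi : Integrable (D.indicator (fun _ => (1 : ℝ))) (mu0 : Measure E) :=
    (integrable_indicator_iff hD).mpr (integrableOn_const hDfin)
  obtain ⟨h1, h2, F, hF, hF1, hF2, hF3⟩ := exists_list (L := L)
    (fun q hq => isRefl (hL q hq).2) hf hf1 hgm hgi (δ := ε / 3) (by positivity)
  refine ⟨F, lc_of_smooth hF.1 hF.2.1, by linarith, ?_⟩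
  have hbi : Integrable ((Metric.ball (0 : E) s).indicator (fun _ => (1 : ℝ))) (mu0 : Measure E) :=
    (integrable_indicator_iff Metric.isOpen_ball.measurableSet).mpr (integrableOn_const hBfin)
  have i1 := ((fn_integrable hF).sub h2).abs
  have i2 := (h2.sub hbi).abs
  simp only [Pi.sub_apply] at i1 i2
  calc ∫ y, |F y - (Metric.ball (0 : E) s).indicator (fun _ => (1 : ℝ)) y| ∂(mu0 : Measure E)
      ≤ ∫ y, (|F y - L.foldr (fun q f => pol q.1 q.2 f) (D.indicator (fun _ => (1 : ℝ))) y|
        + |L.foldr (fun q f => pol q.1 q.2 f) (D.indicator (fun _ => (1 : ℝ))) y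
          - (Metric.ball (0 : E) s).indicator (fun _ => (1 : ℝ)) y|) ∂(mu0 : Measure E) := by
        refine integral_mono_of_nonneg (Eventually.of_forall fun y => abs_nonneg _) (i1.add i2)
          (Eventually.of_forall fun y => abs_sub_le _ _ _)
    _ ≤ ε := by
        rw [integral_add i1 i2]
        linarith

end

end Pool.Agent.Work.MP_3b24f6_gt
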