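import Pool.Agent.Work.MP_3b24f6_gt.H0.Refl

/-!
Greedy lemma: finitely many polarisations bring a set of finite volume as close as we like to the
ball of the same volume centred at the origin.
-/

set_option autoImplicit false

open MeasureTheory Set Filter Topology Metric
open scoped InnerProductSpace ENNReal NNReal

set_option linter.unusedSectionVars false

namespace Pool.Agent.Work.MP_3b24f6_gt

noncomputable section

variable {E : Type*} [NormedAddCommGroup E] [InnerProductSpace ℝ E] [FiniteDimensional ℝ E]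

/-- The polarised set. -/
def pset (a : E) (b : ℝ) (D : Set E) : Set E :=
  {y | (ell a b y ≤ 0 ∧ (y ∈ D ∨ refl a b y ∈ D)) ∨
    (0 < ell a b y ∧ y ∈ D ∧ refl a b y ∈ D)}

theorem pol_indicator (a : E) (b : ℝ) (D : Set E) :
    pol a b (D.indicator 1) = (pset a b D).indicator (1 : E → ℝ) := by
  funext y
  by_cases h : ell a b y ≤ 0
  · by_cases h1 : y ∈ D <;> by_cases h2 : refl a b y ∈ D <;>
      simp [pol, pset, h, h1, h2, not_lt.2 h]
  · by_cases h1 : y ∈ D <;> by_cases h2 : refl a b y ∈ D <;>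
      simp [pol, pset, h, h1, h2, not_le.1 h]

/-- Iterated polarisation of sets. -/
def lset (l : List (E × ℝ)) (D : Set E) : Set E := l.foldr (fun q D => pset q.1 q.2 D) D

theorem lpol_indicator (l : List (E × ℝ)) (D : Set E) :
    l.foldr (fun q f => pol q.1 q.2 f) (D.indicator 1) = (lset l D).indicator (1 : E → ℝ) := by
  induction l with
  | nil => rfl
  | cons q l ih =>
    rw [List.foldr_cons, ih, pol_indicator]
    rfl

theorem pset_swap (a : E) (b : ℝ) {y : E} (h : ell a b y = 0) :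
    refl a b y = y := by
  rw [refl, h]
  simp

variable [MeasurableSpace E] [BorelSpace E]

theorem measurableSet_pset (a : E) (b : ℝ) {D : Set E} (hD : MeasurableSet D) :
    MeasurableSet (pset a b D) := by
  have h1 : MeasurableSet {y | ell a b y ≤ 0} :=
    measurableSet_le (continuous_ell a b).measurable measurable_const
  have h2 : MeasurableSet {y | 0 < ell a b y} :=
    measurableSet_lt measurable_const (continuous_ell a b).measurable
  have h3 : MeasurableSet (refl a b ⁻¹' D) := (continuous_refl a b).measurable hD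
  exact (h1.inter (hD.union h3)).union (h2.inter (hD.inter h3))

theorem measurableSet_lset (l : List (E × ℝ)) {D : Set E} (hD : MeasurableSet D) :
    MeasurableSet (lset l D) := by
  induction l with
  | nil => exact hD
  | cons q l ih => exact measurableSet_pset _ _ ih

theorem lintegral_split {a : E} {b : ℝ} (hab : ‖a‖ ^ 2 = 1 + b ^ 2) {F : E → ℝ≥0∞}
    (hF : Measurable F) :
    ∫⁻ y, F y ∂mu0 = ∫⁻ y in {y | ell a b y < 0}, (F y + F (refl a b y)) ∂mu0 +
      ∫⁻ y in {y | ell a b y = 0}, F y ∂mu0 := by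
  have hm : Measurable (ell a b) := (continuous_ell a b).measurable
  have h1 : MeasurableSet {y | ell a b y < 0} := measurableSet_lt hm measurable_const
  have h2 : MeasurableSet {y | ell a b y = 0} := measurableSet_eq_fun hm measurable_const
  have h3 : MeasurableSet {y | 0 < ell a b y} := measurableSet_lt measurable_const hm
  have h4 : ∫⁻ y, F y ∂mu0 = ∫⁻ y in {y | ell a b y < 0}, F y ∂mu0 +
      (∫⁻ y in {y | 0 < ell a b y}, F y ∂mu0 + ∫⁻ y in {y | ell a b y = 0}, F y ∂mu0) := by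
    rw [← lintegral_union h2 (by
      rw [Set.disjoint_left]
      intro y hy hy'
      simp only [mem_ofPred_eq] at hy hy'
      linarith), ← lintegral_add_compl F h1]
    congr 2
    congr 1
    ext y
    simp only [mem_compl_iff, mem_ofPred_eq, not_lt, mem_union]
    constructor
    · intro h
      rcases h.lt_or_eq with h | h
      · exact Or.inl h
      · exact Or.inr h.symm
    · rintro (h | h) <;> linarith
  have h5 : ∫⁻ y in {y | 0 < ell a b y}, F y ∂mu0 =
      ∫⁻ y in {y | ell a b y < 0}, F (refl a b y) ∂mu0 := by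
    rw [← lintegral_indicator h3, ← lintegral_indicator h1,
      ← (mp_refl hab).lintegral_comp (hF.indicator h3)]
    refine lintegral_congr fun y => ?_
    simp only [indicator_apply, mem_ofPred_eq, ell_refl hab, Left.neg_pos_iff]
  rw [h4, h5, lintegral_add_left hF]
  ring

/-- The effect of a polarisation on the part inside a set `S` such as a ball centred at `0`. -/
theorem mu0_pset_inter {a : E} {b : ℝ} (hab : ‖a‖ ^ 2 = 1 + b ^ 2) {S D : Set E}
    (hS : MeasurableSet S) (hcen : ∀ y, ell a b y ≤ 0 → refl a b y ∈ S → y ∈ S)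
    (hD : MeasurableSet D) :
    mu0 (pset a b D ∩ S) = mu0 (D ∩ S) +
      mu0 {y | ell a b y < 0 ∧ (y ∈ S ∧ y ∉ D) ∧ (refl a b y ∈ D ∧ refl a b y ∉ S)} := by
  classical
  have hm : Measurable (ell a b) := (continuous_ell a b).measurable
  have hr : Measurable (refl a b) := (continuous_refl a b).measurable
  have h1 : MeasurableSet {y | ell a b y < 0} := measurableSet_lt hm measurable_const
  set G : Set E := {y | ell a b y < 0 ∧ (y ∈ S ∧ y ∉ D) ∧ (refl a b y ∈ D ∧ refl a b y ∉ S)}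
    with hG
  have hGm : MeasurableSet G := h1.inter ((hS.inter hD.compl).inter ((hr hD).inter (hr hS.compl)))
  have hPm := (measurableSet_pset a b hD).inter hS
  have hDm := hD.inter hS
  have e1 : ∀ A : Set E, MeasurableSet A → mu0 A = ∫⁻ y, A.indicator 1 y ∂mu0 := fun A hA => by
    rw [lintegral_indicator_one hA]
  rw [e1 _ hPm, e1 _ hDm, e1 _ hGm,
    ← lintegral_add_left (measurable_one.indicator hDm)]
  have e2 : ∫⁻ y, ((D ∩ S).indicator 1 y + G.indicator 1 y) ∂(mu0 : Measure E) =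
      ∫⁻ y in {y | ell a b y < 0}, (((D ∩ S).indicator 1 y + G.indicator 1 y) +
        ((D ∩ S).indicator 1 (refl a b y) + G.indicator 1 (refl a b y))) ∂mu0 +
      ∫⁻ y in {y | ell a b y = 0}, ((D ∩ S).indicator 1 y + G.indicator 1 y) ∂mu0 :=
    lintegral_split hab (F := fun y => (D ∩ S).indicator 1 y + G.indicator 1 y)
      ((measurable_one.indicator hDm).add (measurable_one.indicator hGm))
  rw [e2, lintegral_split hab (measurable_one.indicator hPm)]
  congr 1
  · refine setLIntegral_congr_fun h1 fun y hy => ?_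
    have hy' : ell a b y < 0 := hy
    have hy2 : ¬ 0 < ell a b y := not_lt.2 hy'.le
    have hy3 : ¬ -ell a b y ≤ 0 := by
      push Not
      linarith
    have hy4 : 0 < -ell a b y := by linarith
    have hy5 : ¬ -ell a b y < 0 := not_lt.2 hy4.le
    have hc := hcen y hy'.le
    simp only [indicator_apply, Pi.one_apply, mem_inter_iff, pset, hG, mem_ofPred_eq,
      ell_refl hab, refl_refl hab, hy', hy'.le, hy2, hy3, hy4, hy5, true_and, false_and, or_false,
      false_or]
    by_cases a4 : refl a b y ∈ S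
    · have a3 : y ∈ S := hc a4
      by_cases a1 : y ∈ D <;> by_cases a2 : refl a b y ∈ D <;> simp [a1, a2, a3, a4]
    · by_cases a3 : y ∈ S <;> by_cases a1 : y ∈ D <;> by_cases a2 : refl a b y ∈ D <;>
        simp [a1, a2, a3, a4]
  · refine setLIntegral_congr_fun (measurableSet_eq_fun hm measurable_const) fun y hy => ?_
    have hy' : ell a b y = 0 := hy
    have hy2 := pset_swap a b hy'
    simp only [indicator_apply, Pi.one_apply, mem_inter_iff, pset, hG, mem_ofPred_eq, hy', hy2,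
      le_refl, lt_irrefl, true_and, false_and, or_false, or_self, if_false, add_zero]

omit [FiniteDimensional ℝ E] [MeasurableSpace E] [BorelSpace E] in
theorem norm_le_of_uu_le {x y : E} (h : uu x ≤ uu y) : ‖x‖ ≤ ‖y‖ := by
  have h1 := uu_sq0 x
  have h2 := uu_sq0 y
  have h3 : uu x ^ 2 ≤ uu y ^ 2 := pow_le_pow_left₀ (uu_pos0 x).le h 2
  have h4 : ‖x‖ ^ 2 ≤ ‖y‖ ^ 2 := by linarith
  exact (sq_le_sq₀ (norm_nonneg _) (norm_nonneg _)).1 h4

omit [FiniteDimensional ℝ E] [MeasurableSpace E] [BorelSpace E] in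
theorem norm_le_refl {a : E} {b : ℝ} (hab : ‖a‖ ^ 2 = 1 + b ^ 2) (hb : 0 ≤ b) {y : E}
    (hy : ell a b y ≤ 0) : ‖y‖ ≤ ‖refl a b y‖ := by
  apply norm_le_of_uu_le
  rw [uu_refl hab]
  nlinarith

theorem mu0_le_volume (A : Set E) : mu0 A ≤ volume A := by
  have h : (mu0 : Measure E) ≤ volume := by
    unfold mu0
    calc volume.withDensity (fun y : E => ENNReal.ofReal (rho0 y))
        ≤ volume.withDensity (fun _ => 1) := by
          apply withDensity_mono
          refine Filter.Eventually.of_forall fun y => ?_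
          rw [← ENNReal.ofReal_one]
          exact ENNReal.ofReal_le_ofReal (inv_le_one_of_one_le₀ (one_le_uu0 y))
      _ = volume := withDensity_one
  exact h A

instance sfinite_mu0 : SFinite (mu0 : Measure E) := by
  unfold mu0
  infer_instance

/-! ### The averaging argument -/

omit [MeasurableSpace E] [BorelSpace E] in
/-- The reflection determined by its space part `a` (with `b = √(‖a‖² - 1)`). -/
def rfa (a x : E) : E := refl a (√(‖a‖ ^ 2 - 1)) x

omit [FiniteDimensional ℝ E] [MeasurableSpace E] [BorelSpace E] in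
theorem continuous_rfa : Continuous fun p : E × E => rfa p.1 p.2 := by
  have h : Continuous (uu : E → ℝ) := contDiff_uu0.continuous
  unfold rfa refl ell
  have h2 : Continuous fun p : E × E => uu p.2 := h.comp continuous_snd
  fun_prop

/-- `vol (f '' T) ≤ L ^ N vol T`. -/
theorem volume_image_lip {f : E → E} {T : Set E} {L : ℝ≥0} (h : LipschitzOnWith L f T) :
    volume (f '' T) ≤ (L : ℝ≥0∞) ^ (Module.finrank ℝ E) * volume T := by
  set N := Module.finrank ℝ E with hN
  have h1 := h.hausdorffMeasure_image_le (d := (N : ℝ)) (by positivity)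
  have h2 := Measure.isAddLeftInvariant_eq_smul (volume : Measure E) (μH[(N : ℝ)])
  rw [h2, Measure.smul_apply, Measure.smul_apply]
  rw [ENNReal.rpow_natCast] at h1
  rw [ENNReal.smul_def, ENNReal.smul_def, smul_eq_mul, smul_eq_mul]
  calc _ ≤ _ := mul_le_mul_right h1 _
    _ = _ := by ring

omit [MeasurableSpace E] [BorelSpace E] in
theorem lip_rfa {M₁ M₂ U : ℝ} (hM₁ : 0 ≤ M₁) (hM₂ : 0 ≤ M₂) (hU : 0 ≤ U) :
    ∃ L : ℝ≥0, ∀ x : E, uu x ≤ U → LipschitzOnWith L (fun a => rfa a x)
      {a | ‖a‖ ≤ M₁ ∧ 1 ≤ ‖a‖ ∧ 1 ≤ M₂ * √(‖a‖ ^ 2 - 1)} := by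
  refine ⟨⟨4 * M₁ * U + 2 * ((1 + M₁ * M₂) * U) * M₁, by positivity⟩, fun x hx => ?_⟩
  refine LipschitzOnWith.of_dist_le_mul fun a ha a' ha' => ?_
  obtain ⟨h1, h2, h3⟩ := ha
  obtain ⟨h1', h2', h3'⟩ := ha'
  have hxU : ‖x‖ ≤ U := (norm_lt_uu0 x).le.trans hx
  set b := √(‖a‖ ^ 2 - 1) with hb
  set b' := √(‖a'‖ ^ 2 - 1) with hb'
  have hb0 : 0 ≤ b := Real.sqrt_nonneg _
  have hb0' : 0 ≤ b' := Real.sqrt_nonneg _
  have hbs : b ^ 2 = ‖a‖ ^ 2 - 1 := Real.sq_sqrt (by nlinarith)
  have hbs' : b' ^ 2 = ‖a'‖ ^ 2 - 1 := Real.sq_sqrt (by nlinarith)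
  have hb1 : b ≤ M₁ := by
    have : b ^ 2 ≤ M₁ ^ 2 := by nlinarith [norm_nonneg a]
    exact (sq_le_sq₀ hb0 hM₁).1 this
  have hd : |‖a‖ - ‖a'‖| ≤ ‖a - a'‖ := abs_norm_sub_norm_le a a'
  have hbb : |b - b'| ≤ M₁ * M₂ * ‖a - a'‖ := by
    have e1 : (b - b') * (b + b') = (‖a‖ - ‖a'‖) * (‖a‖ + ‖a'‖) := by nlinarith
    have e2 : |b - b'| * (b + b') = |‖a‖ - ‖a'‖| * (‖a‖ + ‖a'‖) := by
      have := congrArg abs e1
      rwa [abs_mul, abs_mul, abs_of_nonneg (by positivity : 0 ≤ b + b'),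
        abs_of_nonneg (by positivity : 0 ≤ ‖a‖ + ‖a'‖)] at this
    have e3 : |b - b'| * (b + b') ≤ ‖a - a'‖ * (2 * M₁) := by
      rw [e2]
      gcongr
      linarith
    have e4 : 2 * |b - b'| ≤ M₂ * (|b - b'| * (b + b')) := by
      have : 2 ≤ M₂ * (b + b') := by linarith
      nlinarith [abs_nonneg (b - b')]
    have e5 : M₂ * (|b - b'| * (b + b')) ≤ M₂ * (‖a - a'‖ * (2 * M₁)) := by gcongr
    linarith
  have hl : |ell a b x - ell a' b' x| ≤ (1 + M₁ * M₂) * U * ‖a - a'‖ := by
    have e1 : ell a b x - ell a' b' x = ⟪a - a', x⟫_ℝ - (b - b') * uu x := by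
      rw [ell, ell, inner_sub_left]
      ring
    rw [e1]
    calc |⟪a - a', x⟫_ℝ - (b - b') * uu x| ≤ |⟪a - a', x⟫_ℝ| + |(b - b') * uu x| := abs_sub _ _
      _ ≤ ‖a - a'‖ * U + M₁ * M₂ * ‖a - a'‖ * U := by
          refine add_le_add ((abs_real_inner_le_norm _ _).trans (by gcongr)) ?_
          rw [abs_mul, abs_of_pos (uu_pos0 x)]
          gcongr
          exact (uu_pos0 x).le
      _ = _ := by ring
  have hl0 : |ell a b x| ≤ 2 * M₁ * U := by
    rw [ell]
    calc |⟪a, x⟫_ℝ - b * uu x| ≤ |⟪a, x⟫_ℝ| + |b * uu x| := abs_sub _ _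
      _ ≤ M₁ * U + M₁ * U := by
          refine add_le_add ((abs_real_inner_le_norm _ _).trans (by gcongr)) ?_
          rw [abs_mul, abs_of_pos (uu_pos0 x), abs_of_nonneg hb0]
          gcongr
          exact (uu_pos0 x).le
      _ = _ := by ring
  show dist (rfa a x) (rfa a' x) ≤ _ * dist a a'
  rw [dist_eq_norm, dist_eq_norm]
  have e1 : rfa a x - rfa a' x = -((2 * ell a b x) • (a - a')
      + (2 * (ell a b x - ell a' b' x)) • a') := by
    simp only [rfa, refl, ← hb, ← hb']
    module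
  rw [e1, norm_neg]
  calc ‖(2 * ell a b x) • (a - a') + (2 * (ell a b x - ell a' b' x)) • a'‖
      ≤ ‖(2 * ell a b x) • (a - a')‖ + ‖(2 * (ell a b x - ell a' b' x)) • a'‖ := norm_add_le _ _
    _ = 2 * |ell a b x| * ‖a - a'‖ + 2 * |ell a b x - ell a' b' x| * ‖a'‖ := by
        rw [norm_smul, norm_smul, Real.norm_eq_abs, Real.norm_eq_abs, abs_mul, abs_mul]
        simp
    _ ≤ 2 * (2 * M₁ * U) * ‖a - a'‖ + 2 * ((1 + M₁ * M₂) * U * ‖a - a'‖) * M₁ := by gcongr
    _ = _ := by
        show _ = (4 * M₁ * U + 2 * ((1 + M₁ * M₂) * U) * M₁) * ‖a - a'‖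
        ring

/-- Some reflection moves a fixed proportion of `X'` (inside) to `A'` (outside). -/
theorem exists_gain (hE : 1 ≤ Module.finrank ℝ E) {r s R : ℝ} (hrs : r < s) :
    ∃ C : ℝ≥0∞, C ≠ ∞ ∧ ∀ X A : Set E, MeasurableSet X → MeasurableSet A →
      X ⊆ closedBall 0 r → A ⊆ closedBall 0 R \ ball 0 s →
      ∃ (a : E) (b : ℝ), ‖a‖ ^ 2 = 1 + b ^ 2 ∧ 0 < b ∧
        mu0 X * mu0 A ≤ C * mu0 {x | x ∈ X ∧ refl a b x ∈ A} := by
  classical
  have hcu : Continuous (uu : E → ℝ) := contDiff_uu0.continuous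
  set Q : Set (E × E) := closedBall 0 r ×ˢ (closedBall 0 R \ ball 0 s) with hQ
  have hQc : IsCompact Q :=
    (isCompact_closedBall _ _).prod ((isCompact_closedBall _ _).diff isOpen_ball)
  have hlt : ∀ p ∈ Q, ‖p.1‖ < ‖p.2‖ := by
    intro p hp
    have h1 : ‖p.1‖ ≤ r := by simpa using hp.1
    have h2 : s ≤ ‖p.2‖ := by simpa using hp.2.2
    linarith
  have hne : ∀ p ∈ Q, p.1 ≠ p.2 := by
    intro p hp h
    have := hlt p hp
    rw [h] at this
    exact lt_irrefl _ this
  set Df : E × E → ℝ := fun p => √(2 * (chd0 p.1 p.2 - 1)) with hDf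
  have hDc : Continuous Df := by
    have h1 : Continuous fun p : E × E => uu p.1 := hcu.comp continuous_fst
    have h2 : Continuous fun p : E × E => uu p.2 := hcu.comp continuous_snd
    simp only [hDf, chd0]
    fun_prop
  have hDpos : ∀ p ∈ Q, 0 < Df p := fun p hp => (refl_swap (hne p hp) (hlt p hp).le rfl).1
  have huu : ∀ p ∈ Q, uu p.1 < uu p.2 := by
    intro p hp
    by_contra hcon
    push Not at hcon
    exact absurd (norm_le_of_uu_le hcon) (not_le.2 (hlt p hp))
  have hc1 : ContinuousOn (fun p => ‖(Df p)⁻¹ • (p.2 - p.1)‖) Q :=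
    ((hDc.continuousOn.inv₀ fun p hp => (hDpos p hp).ne').smul
      (continuous_snd.sub continuous_fst).continuousOn).norm
  have hc2 : ContinuousOn (fun p => Df p / (uu p.2 - uu p.1)) Q :=
    hDc.continuousOn.div ((hcu.comp continuous_snd).sub (hcu.comp continuous_fst)).continuousOn
      fun p hp => (sub_pos.2 (huu p hp)).ne'
  obtain ⟨M₁, hM₁⟩ := hQc.bddAbove_image hc1
  obtain ⟨M₂, hM₂⟩ := hQc.bddAbove_image hc2
  set M₁' := max M₁ 0 with hM₁'
  set M₂' := max M₂ 0 with hM₂'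
  obtain ⟨U, hU⟩ := (isCompact_closedBall (0 : E) r).bddAbove_image hcu.continuousOn
  obtain ⟨L, hL⟩ := lip_rfa (E := E) (M₁ := M₁') (M₂ := M₂') (U := max U 0)
    (le_max_right _ _) (le_max_right _ _) (le_max_right _ _)
  set K : Set E := {a | ‖a‖ ≤ M₁' ∧ 1 ≤ ‖a‖ ∧ 1 ≤ M₂' * √(‖a‖ ^ 2 - 1)} with hK
  have hKm : MeasurableSet K := by
    have h1 : MeasurableSet {a : E | ‖a‖ ≤ M₁'} :=
      measurableSet_le measurable_norm measurable_const
    have h2 : MeasurableSet {a : E | 1 ≤ ‖a‖} := measurableSet_le measurable_const measurable_norm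
    have h3 : MeasurableSet {a : E | 1 ≤ M₂' * √(‖a‖ ^ 2 - 1)} := by
      refine measurableSet_le measurable_const (Continuous.measurable ?_)
      fun_prop
    exact h1.inter (h2.inter h3)
  have hKb : K ⊆ closedBall 0 M₁' := fun a ha => by simpa using ha.1
  have hKfin : volume K ≠ ∞ := ((measure_mono hKb).trans_lt measure_closedBall_lt_top).ne
  have hKv : ∀ a ∈ K, ‖a‖ ^ 2 = 1 + √(‖a‖ ^ 2 - 1) ^ 2 ∧ 0 < √(‖a‖ ^ 2 - 1) := by
    intro a ha
    have h1 : 0 ≤ ‖a‖ ^ 2 - 1 := by nlinarith [ha.2.1]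
    rw [Real.sq_sqrt h1]
    refine ⟨by ring, ?_⟩
    rcases (Real.sqrt_nonneg (‖a‖ ^ 2 - 1)).lt_or_eq with h | h
    · exact h
    · have := ha.2.2
      rw [← h] at this
      simp only [mul_zero] at this
      linarith
  refine ⟨(L : ℝ≥0∞) ^ (Module.finrank ℝ E) * volume K,
    ENNReal.mul_ne_top (by simp) hKfin, ?_⟩
  intro X A hX hA hXr hAR
  -- the set of good pairs
  set W : Set (E × E) := {p | p.1 ∈ K ∧ p.2 ∈ X ∧ rfa p.1 p.2 ∈ A} with hW
  have hWm : MeasurableSet W := (measurable_fst hKm).inter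
    ((measurable_snd hX).inter (continuous_rfa.measurable hA))
  have h1 : ∀ x ∈ X, volume A ≤
      (L : ℝ≥0∞) ^ (Module.finrank ℝ E) * volume {a | (a, x) ∈ W} := by
    intro x hx
    have hxr := hXr hx
    have hxU : uu x ≤ max U 0 := (hU ⟨x, hxr, rfl⟩).trans (le_max_left _ _)
    have h2 : A ⊆ (fun a => rfa a x) '' {a | (a, x) ∈ W} := by
      intro y hy
      have hp : (x, y) ∈ Q := ⟨hxr, hAR hy⟩
      obtain ⟨e1, e2, e3, e4, -⟩ := refl_swap (hne _ hp) (hlt _ hp).le (D := Df (x, y)) rfl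
      set a := (Df (x, y))⁻¹ • (y - x) with ha
      have hb : √(‖a‖ ^ 2 - 1) = (uu y - uu x) / Df (x, y) := by
        rw [e2, add_sub_cancel_left, Real.sqrt_sq e3]
      have hra : rfa a x = y := by
        rw [rfa, hb]
        exact e4
      refine ⟨a, ⟨⟨?_, ?_, ?_⟩, hx, ?_⟩, hra⟩
      · exact (hM₁ ⟨(x, y), hp, rfl⟩).trans (le_max_left _ _)
      · show 1 ≤ ‖a‖
        have : 1 ≤ ‖a‖ ^ 2 := by
          rw [e2]
          nlinarith [sq_nonneg ((uu y - uu x) / Df (x, y))]
        nlinarith [norm_nonneg a]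
      · show 1 ≤ M₂' * √(‖a‖ ^ 2 - 1)
        rw [hb]
        have h3 : Df (x, y) / (uu y - uu x) ≤ M₂' := (hM₂ ⟨(x, y), hp, rfl⟩).trans (le_max_left _ _)
        have h4 : 0 < uu y - uu x := sub_pos.2 (huu _ hp)
        calc (1 : ℝ) = Df (x, y) / (uu y - uu x) * ((uu y - uu x) / Df (x, y)) := by
              field_simp
          _ ≤ M₂' * ((uu y - uu x) / Df (x, y)) := by gcongr
      · show rfa a x ∈ A
        rw [hra]
        exact hy
    calc volume A ≤ volume ((fun a => rfa a x) '' {a | (a, x) ∈ W}) := measure_mono h2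
      _ ≤ _ := volume_image_lip ((hL x hxU).mono fun a ha => ha.1)
  -- Tonelli
  have h2 : mu0 X * volume A ≤ (L : ℝ≥0∞) ^ (Module.finrank ℝ E) *
      ∫⁻ a in K, mu0 {x | x ∈ X ∧ rfa a x ∈ A} := by
    have e1 : ∫⁻ x in X, volume A ∂(mu0 : Measure E) = mu0 X * volume A := by
      rw [setLIntegral_const, mul_comm]
    have e2 : ∫⁻ x, volume {a | (a, x) ∈ W} ∂(mu0 : Measure E) =
        ∫⁻ a in K, mu0 {x | x ∈ X ∧ rfa a x ∈ A} := by
      have e3 := Measure.prod_apply_symm (μ := (volume : Measure E)) (ν := (mu0 : Measure E)) hWm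
      have e4 := Measure.prod_apply (μ := (volume : Measure E)) (ν := (mu0 : Measure E)) hWm
      have e5 : ∫⁻ x, volume {a | (a, x) ∈ W} ∂(mu0 : Measure E) =
          ∫⁻ a, mu0 (Prod.mk a ⁻¹' W) := e3.symm.trans e4
      rw [e5, ← lintegral_indicator hKm]
      refine lintegral_congr fun a => ?_
      by_cases ha : a ∈ K
      · rw [indicator_of_mem ha]
        congr 1
        ext x
        simp [hW, ha]
      · rw [indicator_of_notMem ha]
        have : Prod.mk a ⁻¹' W = ∅ := by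
          ext x
          simp [hW, ha]
        rw [this, measure_empty]
    rw [← e1, ← e2]
    calc ∫⁻ x in X, volume A ∂(mu0 : Measure E)
        ≤ ∫⁻ x in X, (L : ℝ≥0∞) ^ (Module.finrank ℝ E) * volume {a | (a, x) ∈ W} ∂mu0 :=
          setLIntegral_mono' hX h1
      _ ≤ ∫⁻ x, (L : ℝ≥0∞) ^ (Module.finrank ℝ E) * volume {a | (a, x) ∈ W} ∂mu0 :=
          setLIntegral_le_lintegral _ _
      _ = _ := lintegral_const_mul' _ _ (by simp)
  have h3 : mu0 X * mu0 A ≤ mu0 X * volume A := by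
    exact mul_le_mul_right (mu0_le_volume A) _
  by_cases hK0 : volume K = 0
  · have h4 : mu0 X * mu0 A = 0 := by
      refine le_antisymm (h3.trans (h2.trans ?_)) zero_le
      rw [Measure.restrict_eq_zero.2 hK0]
      simp
    have : Nontrivial E := by
      by_contra hcon
      rw [not_nontrivial_iff_subsingleton] at hcon
      have := Module.finrank_zero_of_subsingleton (R := ℝ) (M := E)
      omega
    obtain ⟨a, ha⟩ := exists_norm_eq E (c := √2) (Real.sqrt_nonneg _)
    refine ⟨a, 1, ?_, one_pos, ?_⟩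
    · rw [ha, Real.sq_sqrt (by norm_num)]
      norm_num
    · rw [h4]
      exact zero_le
  · have hfin : ∫⁻ a in K, mu0 {x | x ∈ X ∧ rfa a x ∈ A} ≠ ∞ := by
      have h5 : ∫⁻ a in K, mu0 {x | x ∈ X ∧ rfa a x ∈ A} ≤ ∫⁻ a in K, volume (closedBall (0 : E) r) := by
        refine lintegral_mono fun a => ?_
        exact (mu0_le_volume _).trans (measure_mono fun x hx => hXr hx.1)
      refine (h5.trans_lt ?_).ne
      rw [setLIntegral_const]
      exact ENNReal.mul_lt_top measure_closedBall_lt_top hKfin.lt_top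
    obtain ⟨a, haK, ha⟩ := exists_setLAverage_le hK0 hKm.nullMeasurableSet hfin
    refine ⟨a, √(‖a‖ ^ 2 - 1), (hKv a haK).1, (hKv a haK).2, ?_⟩
    rw [setLAverage_eq] at ha
    refine h3.trans (h2.trans ?_)
    rw [ENNReal.div_le_iff hK0 hKfin] at ha
    calc (L : ℝ≥0∞) ^ (Module.finrank ℝ E) * ∫⁻ a in K, mu0 {x | x ∈ X ∧ rfa a x ∈ A}
        ≤ (L : ℝ≥0∞) ^ (Module.finrank ℝ E) *
          (mu0 {x | x ∈ X ∧ rfa a x ∈ A} * volume K) := by gcongr
      _ = _ := by
          simp only [rfa]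
          ring

end

end Pool.Agent.Work.MP_3b24f6_gt
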