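import Pool.Agent.Work.MP_3b24f6_gt.H0.Model
import Pool.Agent.Work.MP_3b24f6_gt.Mollify

/-!
# Pointwise facts on the metric `mg0` and the conormal norm `an0`
-/

set_option autoImplicit false
set_option linter.unusedSectionVars false

open MeasureTheory Set Filter Topology
open scoped ContDiff InnerProductSpace Convolution

namespace Pool.Agent.Work.MP_3b24f6_gt

noncomputable section

variable {E : Type*} [NormedAddCommGroup E] [InnerProductSpace ℝ E] [FiniteDimensional ℝ E]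

namespace Mol0

open Mol

theorem contDiff_rho0 : ContDiff ℝ ∞ (rho0 : E → ℝ) := contDiff_uu.inv fun y => (uu_pos y).ne'

theorem rho0_pos (y : E) : 0 < rho0 y := inv_pos.mpr (uu_pos y)

/-- The metric operator. -/
def Aop0 (y : E) : E →L[ℝ] E :=
  ContinuousLinearMap.id ℝ E - (uu y ^ 2)⁻¹ • (innerSL ℝ y).smulRight y

/-- Its inverse. -/
def Cop0 (y : E) : E →L[ℝ] E :=
  ContinuousLinearMap.id ℝ E + (innerSL ℝ y).smulRight y

theorem Aop0_apply (y v : E) : Aop0 y v = v - ((uu y ^ 2)⁻¹ * ⟪y, v⟫_ℝ) • y := by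
  simp [Aop0, smul_smul]

theorem Cop0_apply (y v : E) : Cop0 y v = v + ⟪y, v⟫_ℝ • y := by
  simp [Cop0]

theorem inner_Aop0 (y u v : E) : ⟪Aop0 y u, v⟫_ℝ
    = ⟪u, v⟫_ℝ - (uu y ^ 2)⁻¹ * ⟪y, u⟫_ℝ * ⟪y, v⟫_ℝ := by
  rw [Aop0_apply, inner_sub_left, real_inner_smul_left]

theorem inner_Aop0_self (y v : E) : ⟪Aop0 y v, v⟫_ℝ = mg0 y v := by
  rw [inner_Aop0, mg0, real_inner_self_eq_norm_sq]
  ring

theorem inner_Aop0_comm (y u v : E) : ⟪Aop0 y u, v⟫_ℝ = ⟪Aop0 y v, u⟫_ℝ := by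
  rw [inner_Aop0, inner_Aop0, real_inner_comm u v]
  ring

theorem Aop0_Cop0 (y ξ : E) : Aop0 y (Cop0 y ξ) = ξ := by
  have hU := uu_sq y
  have h1 : ⟪y, Cop0 y ξ⟫_ℝ = uu y ^ 2 * ⟪y, ξ⟫_ℝ := by
    rw [Cop0_apply, inner_add_right, inner_smul_right, real_inner_self_eq_norm_sq, hU]
    ring
  rw [Aop0_apply, h1, Cop0_apply, ← mul_assoc, inv_mul_cancel₀ (uu_sq_pos y).ne', one_mul]
  abel

theorem mg0_lower (y v : E) : ‖v‖ ^ 2 / uu y ^ 2 ≤ mg0 y v := by
  have h2 : ⟪y, v⟫_ℝ ^ 2 ≤ ‖y‖ ^ 2 * ‖v‖ ^ 2 := by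
    rw [← mul_pow]
    exact sq_le_sq' (by linarith [neg_le_of_abs_le (abs_real_inner_le_norm y v)])
      (real_inner_le_norm y v)
  have h3 := uu_sq_pos y
  have h4 : ‖v‖ ^ 2 / uu y ^ 2 = ‖v‖ ^ 2 - ‖y‖ ^ 2 * ‖v‖ ^ 2 / uu y ^ 2 := by
    rw [uu_sq]
    field_simp
    ring
  have h5 : ⟪y, v⟫_ℝ ^ 2 / uu y ^ 2 ≤ ‖y‖ ^ 2 * ‖v‖ ^ 2 / uu y ^ 2 := by gcongr
  rw [h4, mg0]
  linarith

theorem mg0_nonneg (y v : E) : 0 ≤ mg0 y v :=
  le_trans (by positivity) (mg0_lower y v)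

theorem mg0_pos (y : E) {v : E} (hv : v ≠ 0) : 0 < mg0 y v :=
  lt_of_lt_of_le (by have := uu_sq_pos y; positivity) (mg0_lower y v)

theorem mg0_smul (y : E) (t : ℝ) (v : E) : mg0 y (t • v) = t ^ 2 * mg0 y v := by
  rw [← inner_Aop0_self, ← inner_Aop0_self, map_smul, real_inner_smul_left, inner_smul_right]
  ring

theorem mg0_cs (y u v : E) : ⟪Aop0 y u, v⟫_ℝ ^ 2 ≤ mg0 y u * mg0 y v := by
  have h : ∀ t : ℝ, 0 ≤ mg0 y u * (t * t) + (-2 * ⟪Aop0 y u, v⟫_ℝ) * t + mg0 y v := by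
    intro t
    have h0 := mg0_nonneg y (v - t • u)
    have e : mg0 y (v - t • u)
        = mg0 y u * (t * t) + (-2 * ⟪Aop0 y u, v⟫_ℝ) * t + mg0 y v := by
      rw [← inner_Aop0_self, ← inner_Aop0_self, ← inner_Aop0_self, map_sub, map_smul,
        inner_sub_left, inner_sub_right, inner_sub_right, real_inner_smul_left,
        real_inner_smul_left, inner_smul_right, inner_smul_right, inner_Aop0_comm y v u]
      ring
    rwa [e] at h0
  have h2 := discrim_le_zero h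
  unfold discrim at h2
  nlinarith [h2]

theorem mg0_Cop0 (y ξ : E) : mg0 y (Cop0 y ξ) = ⟪Cop0 y ξ, ξ⟫_ℝ := by
  rw [← inner_Aop0_self, Aop0_Cop0, real_inner_comm]

theorem inner_Cop0_nonneg (y ξ : E) : 0 ≤ ⟪Cop0 y ξ, ξ⟫_ℝ := by
  rw [← mg0_Cop0]
  exact mg0_nonneg y _

theorem an0_sq (y ξ : E) : an0 y ξ ^ 2 = ⟪Cop0 y ξ, ξ⟫_ℝ := by
  have e : ⟪Cop0 y ξ, ξ⟫_ℝ = ‖ξ‖ ^ 2 + ⟪y, ξ⟫_ℝ ^ 2 := by
    rw [Cop0_apply, inner_add_left, real_inner_smul_left, real_inner_self_eq_norm_sq]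
    ring
  rw [an0, ← e, Real.sq_sqrt (inner_Cop0_nonneg y ξ)]

theorem an0_nonneg (y ξ : E) : 0 ≤ an0 y ξ := Real.sqrt_nonneg _

/-- Duality. -/
theorem abs_inner_le0 (y v ξ : E) : |⟪ξ, v⟫_ℝ| ≤ an0 y ξ * Real.sqrt (mg0 y v) := by
  have h := mg0_cs y (Cop0 y ξ) v
  rw [Aop0_Cop0, mg0_Cop0, ← an0_sq] at h
  have h2 : an0 y ξ ^ 2 * mg0 y v = (an0 y ξ * Real.sqrt (mg0 y v)) ^ 2 := by
    rw [mul_pow, Real.sq_sqrt (mg0_nonneg y v)]
  rw [h2] at h
  exact abs_le_of_sq_le_sq h (mul_nonneg (an0_nonneg y ξ) (Real.sqrt_nonneg _))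

theorem an0_self (y : E) : an0 y y = ‖y‖ * uu y := by
  have h : an0 y y ^ 2 = (‖y‖ * uu y) ^ 2 := by
    rw [an0_sq, Cop0_apply, inner_add_left, real_inner_smul_left,
      real_inner_self_eq_norm_sq, mul_pow, uu_sq]
    ring
  exact (pow_left_inj₀ (an0_nonneg y y) (mul_nonneg (norm_nonneg _) (uu_pos y).le)
    two_ne_zero).mp h

/-- The radial component of a vector. -/
theorem abs_inner_y_le0 (y v : E) :
    |⟪y, v⟫_ℝ| ≤ uu y ^ 2 * Real.sqrt (mg0 y v) := by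
  refine (abs_inner_le0 y v y).trans ?_
  rw [an0_self]
  have := norm_le_uu y
  have h0 := (uu_pos y).le
  have : ‖y‖ * uu y ≤ uu y ^ 2 := by nlinarith
  exact mul_le_mul_of_nonneg_right this (Real.sqrt_nonneg _)

/-! ### smoothness -/

theorem contDiff_Aop0 : ContDiff ℝ ∞ (Aop0 : E → E →L[ℝ] E) := by
  have h1 : ContDiff ℝ ∞ (fun z : E => (uu z ^ 2)⁻¹) :=
    (contDiff_uu.pow 2).inv fun z => (uu_sq_pos z).ne'
  have h2 : ContDiff ℝ ∞ (fun z : E => (innerSL ℝ z).smulRight z) :=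
    ((innerSL ℝ).contDiff.comp contDiff_id).smulRight contDiff_id
  exact contDiff_const.sub (h1.smul h2)

theorem contDiff_Cop0 : ContDiff ℝ ∞ (Cop0 : E → E →L[ℝ] E) := by
  have h2 : ContDiff ℝ ∞ (fun z : E => (innerSL ℝ z).smulRight z) :=
    ((innerSL ℝ).contDiff.comp contDiff_id).smulRight contDiff_id
  exact contDiff_const.add h2

theorem continuous_mg0 : Continuous (fun q : E × E => mg0 q.1 q.2) := by
  have : (fun q : E × E => mg0 q.1 q.2) = fun q => ⟪Aop0 q.1 q.2, q.2⟫_ℝ := by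
    funext q
    exact (inner_Aop0_self q.1 q.2).symm
  rw [this]
  exact ((contDiff_Aop0.continuous.comp continuous_fst).clm_apply continuous_snd).inner
    continuous_snd

theorem continuous_an0 : Continuous (fun q : E × E => an0 q.1 q.2) := by
  have : (fun q : E × E => an0 q.1 q.2) = fun q => Real.sqrt (⟪Cop0 q.1 q.2, q.2⟫_ℝ) := by
    funext q
    rw [← an0_sq, Real.sqrt_sq (an0_nonneg _ _)]
  rw [this]
  exact (((contDiff_Cop0.continuous.comp continuous_fst).clm_apply continuous_snd).inner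
    continuous_snd).sqrt

section conv

variable [MeasurableSpace E] [BorelSpace E] (φ : ContDiffBump (0 : E))

/-- Jensen. -/
theorem mg0_moll_le {Z : E → E} (hZ : Continuous Z) (y : E) {c : ℝ}
    (h : ∀ t, ‖t‖ < φ.rOut → mg0 y (Z (y - t)) ≤ c) : mg0 y (moll φ Z y) ≤ c := by
  set m := moll φ Z y with hm
  have h1 : mg0 y m = ∫ t, φ.normed volume t * ⟪Aop0 y m, Z (y - t)⟫_ℝ := by
    have h0 := integral_inner (𝕜 := ℝ) (integrable_moll_aux φ hZ y) (Aop0 y m)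
    have e : ⟪Aop0 y m, m⟫_ℝ
        = ⟪Aop0 y m, ∫ t, φ.normed volume t • Z (y - t)⟫_ℝ := rfl
    rw [← inner_Aop0_self, e, ← h0]
    refine integral_congr_ae (Eventually.of_forall fun t => ?_)
    simp only [inner_smul_right]
  have h2 : ∫ t, φ.normed volume t * ⟪Aop0 y m, Z (y - t)⟫_ℝ
      ≤ ∫ t, φ.normed (volume : Measure E) t * ((mg0 y m + c) / 2) := by
    refine integral_mono ?_ ((integrable_eta φ).mul_const _) fun t => ?_
    · have := (integrable_moll_aux φ hZ y).const_inner (𝕜 := ℝ) (Aop0 y m)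
      refine this.congr (Eventually.of_forall fun t => ?_)
      simp only [inner_smul_right]
    · simp only
      by_cases ht : ‖t‖ < φ.rOut
      · refine mul_le_mul_of_nonneg_left ?_ (φ.nonneg_normed _)
        have h0 := mg0_nonneg y (m - Z (y - t))
        have e : mg0 y (m - Z (y - t)) = mg0 y m - 2 * ⟪Aop0 y m, Z (y - t)⟫_ℝ
            + mg0 y (Z (y - t)) := by
          rw [← inner_Aop0_self, ← inner_Aop0_self, ← inner_Aop0_self, map_sub, inner_sub_left,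
            inner_sub_right, inner_sub_right, inner_Aop0_comm y (Z (y - t)) m]
          ring
        rw [e] at h0
        have := h t ht
        linarith
      · have : φ.normed (volume : Measure E) t = 0 := by
          by_contra h0
          have : t ∈ Function.support (φ.normed (volume : Measure E)) := h0
          rw [φ.support_normed_eq, Metric.mem_ball, dist_zero_right] at this
          exact ht this
        simp [this]
  rw [← h1, integral_mul_const, φ.integral_normed, one_mul] at h2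
  linarith

/-- Uniform comparison of the metric at nearby points. -/
theorem exists_delta_mg0 {K : Set E} (hK : IsCompact K) {κ : ℝ} (hκ : 0 < κ) :
    ∃ δ, 0 < δ ∧ ∀ x ∈ K, ∀ y ∈ K, dist x y < δ → ∀ v,
      rho0 x ^ 2 * mg0 y v ≤ (1 + κ) * (rho0 y ^ 2 * mg0 x v) := by
  set S : Set (E × E × E) := {p | p.1 ∈ K ∧ p.2.1 ∈ K ∧ p.2.2 ∈ Metric.sphere (0 : E) 1 ∧
    (1 + κ) * (rho0 p.2.1 ^ 2 * mg0 p.1 p.2.2) ≤ rho0 p.1 ^ 2 * mg0 p.2.1 p.2.2} with hS
  have hρ : Continuous (rho0 : E → ℝ) := contDiff_rho0.continuous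
  have hm := continuous_mg0 (E := E)
  have hc1 : Continuous fun p : E × E × E => (1 + κ) * (rho0 p.2.1 ^ 2 * mg0 p.1 p.2.2) := by
    refine continuous_const.mul (((hρ.comp (continuous_fst.comp continuous_snd)).pow 2).mul ?_)
    exact hm.comp (continuous_fst.prodMk (continuous_snd.comp continuous_snd))
  have hc2 : Continuous fun p : E × E × E => rho0 p.1 ^ 2 * mg0 p.2.1 p.2.2 := by
    refine ((hρ.comp continuous_fst).pow 2).mul ?_
    exact hm.comp ((continuous_fst.comp continuous_snd).prodMk (continuous_snd.comp continuous_snd))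
  have hScomp : IsCompact S := by
    have hP : IsCompact (K ×ˢ (K ×ˢ (Metric.sphere (0 : E) 1))) :=
      hK.prod (hK.prod (isCompact_sphere 0 1))
    have hcl : IsClosed {p : E × E × E | (1 + κ) * (rho0 p.2.1 ^ 2 * mg0 p.1 p.2.2)
        ≤ rho0 p.1 ^ 2 * mg0 p.2.1 p.2.2} := isClosed_le hc1 hc2
    have : S = (K ×ˢ (K ×ˢ (Metric.sphere (0 : E) 1))) ∩ {p : E × E × E |
        (1 + κ) * (rho0 p.2.1 ^ 2 * mg0 p.1 p.2.2) ≤ rho0 p.1 ^ 2 * mg0 p.2.1 p.2.2} := by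
      ext p
      simp only [hS, mem_ofPred_eq, mem_inter_iff, mem_prod]
      tauto
    rw [this]
    exact hP.inter_right hcl
  have key : ∃ δ, 0 < δ ∧ ∀ p ∈ S, δ ≤ dist p.1 p.2.1 := by
    rcases S.eq_empty_or_nonempty with hE | hne
    · exact ⟨1, one_pos, fun p hp => by rw [hE] at hp; exact absurd hp (notMem_empty p)⟩
    · obtain ⟨p0, hp0, hmin⟩ := hScomp.exists_isMinOn hne
        (f := fun p : E × E × E => dist p.1 p.2.1)
        (continuous_fst.dist (continuous_fst.comp continuous_snd)).continuousOn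
      refine ⟨dist p0.1 p0.2.1, ?_, fun p hp => hmin hp⟩
      rw [dist_pos]
      intro heq
      obtain ⟨-, -, h3, h4⟩ := hp0
      rw [← heq] at h4
      have hv : p0.2.2 ≠ 0 := by
        intro h0
        rw [h0] at h3
        simp at h3
      have hpos : 0 < rho0 p0.1 ^ 2 * mg0 p0.1 p0.2.2 :=
        mul_pos (pow_pos (rho0_pos _) 2) (mg0_pos _ hv)
      nlinarith
  obtain ⟨δ, hδ, hδ2⟩ := key
  refine ⟨δ, hδ, fun x hx y hy hxy v => ?_⟩
  rcases eq_or_ne v 0 with rfl | hv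
  · have h0 : ∀ z, mg0 z (0 : E) = 0 := fun z => by simp [mg0]
    simp [h0]
  · by_contra hcon
    push Not at hcon
    have hn : 0 < ‖v‖ := norm_pos_iff.mpr hv
    set v' := ‖v‖⁻¹ • v with hv'
    have hvv : v = ‖v‖ • v' := by
      rw [hv', smul_smul, mul_inv_cancel₀ hn.ne', one_smul]
    have hv1 : v' ∈ Metric.sphere (0 : E) 1 := by
      rw [mem_sphere_zero_iff_norm, hv', norm_smul, norm_inv, norm_norm, inv_mul_cancel₀ hn.ne']
    have hmem : (x, y, v') ∈ S := by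
      refine ⟨hx, hy, hv1, ?_⟩
      have m1 : mg0 y v = ‖v‖ ^ 2 * mg0 y v' := by
        conv_lhs => rw [hvv, mg0_smul]
      have m2 : mg0 x v = ‖v‖ ^ 2 * mg0 x v' := by
        conv_lhs => rw [hvv, mg0_smul]
      rw [m1, m2] at hcon
      have h2 : 0 < ‖v‖ ^ 2 := pow_pos hn 2
      have h3 : ‖v‖ ^ 2 * ((1 + κ) * (rho0 y ^ 2 * mg0 x v'))
          ≤ ‖v‖ ^ 2 * (rho0 x ^ 2 * mg0 y v') := by nlinarith
      exact le_of_mul_le_mul_left h3 h2
    have := hδ2 _ hmem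
    exact absurd hxy (not_lt.mpr this)

end conv

end Mol0

end

end Pool.Agent.Work.MP_3b24f6_gt
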