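import Pool.Agent.Work.MP_3b24f6_gt.H0.MolAlg

/-!
# From test functions to measurable sets, w = 0
-/

set_option autoImplicit false
set_option linter.unusedSectionVars false

open MeasureTheory Set Filter Topology
open scoped ContDiff InnerProductSpace Convolution

namespace Pool.Agent.Work.MP_3b24f6_gt

noncomputable section

variable {E : Type*} [NormedAddCommGroup E] [InnerProductSpace ℝ E] [FiniteDimensional ℝ E]
  [MeasurableSpace E] [BorelSpace E]

namespace Mol0

open Mol

/-! ### the measure `mu0` -/

theorem measurable_dens0 : Measurable (fun y : E => ENNReal.ofReal (rho0 y)) :=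
  ENNReal.measurable_ofReal.comp (contDiff_rho0).continuous.measurable

theorem int_mu0 (g : E → ℝ) : ∫ y, g y ∂(mu0 : Measure E) = ∫ y, rho0 y * g y := by
  rw [mu0, integral_withDensity_eq_integral_toReal_smul (measurable_dens0)
    (Eventually.of_forall fun _ => ENNReal.ofReal_lt_top)]
  refine integral_congr_ae (Eventually.of_forall fun y => ?_)
  simp only [ENNReal.toReal_ofReal (rho0_pos y).le, smul_eq_mul]

theorem integrable_mu0_iff {g : E → ℝ} :
    Integrable g (mu0 : Measure E) ↔ Integrable (fun y => rho0 y * g y) := by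
  rw [mu0, integrable_withDensity_iff_integrable_smul' (measurable_dens0)
    (Eventually.of_forall fun _ => ENNReal.ofReal_lt_top)]
  refine integrable_congr (Eventually.of_forall fun y => ?_)
  simp only [ENNReal.toReal_ofReal (rho0_pos y).le, smul_eq_mul]

theorem integrableOn_rho0 {D : Set E} (hD : MeasurableSet D) (hfin : (mu0 : Measure E) D ≠ ⊤) :
    IntegrableOn (rho0 : E → ℝ) D := by
  refine ⟨(contDiff_rho0).continuous.aestronglyMeasurable, ?_⟩
  rw [hasFiniteIntegral_iff_ofReal (Eventually.of_forall fun y => (rho0_pos y).le)]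
  rw [mu0, withDensity_apply _ hD] at hfin
  exact lt_top_iff_ne_top.mpr hfin

theorem integral_rho0 {D : Set E} (hD : MeasurableSet D) :
    ∫ y in D, rho0 y = ((mu0 : Measure E) D).toReal := by
  rw [mu0, withDensity_apply _ hD,
    integral_eq_lintegral_of_nonneg_ae (Eventually.of_forall fun y => (rho0_pos y).le)
      (contDiff_rho0).continuous.aestronglyMeasurable]

/-! ### smooth cutoffs with small gradient -/

theorem abs_fderiv_chi0 {C : ℝ}
    (hC : ∀ x, |deriv Real.smoothTransition x| ≤ C) {M : ℝ} (hM : 0 < M) (y v : E) :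
    |fderiv ℝ (chi M : E → ℝ) y v| ≤ C / M * Real.sqrt (mg0 y v) := by
  rw [fderiv_chi, abs_mul, abs_neg, abs_div, abs_div, abs_of_pos hM,
    abs_of_pos (uu_sq_pos y)]
  have h1 := abs_inner_y_le0 y v
  have h2 : |⟪y, v⟫_ℝ| / uu y ^ 2 ≤ Real.sqrt (mg0 y v) := by
    rw [div_le_iff₀ (uu_sq_pos y)]
    linarith
  have hC0 : 0 ≤ C := (abs_nonneg _).trans (hC 0)
  calc |deriv Real.smoothTransition (2 - Real.log (uu y) / M)| * (|⟪y, v⟫_ℝ| / uu y ^ 2 / M)
      ≤ C * (Real.sqrt (mg0 y v) / M) := by
        gcongr
        exact hC _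
    _ = C / M * Real.sqrt (mg0 y v) := by ring

/-! ### the weak total variation -/

/-- Admissible fields. -/
def Adm0 (X : E → E) : Prop :=
  ContDiff ℝ ∞ X ∧ HasCompactSupport X ∧ ∀ y, mg0 y (X y) ≤ 1

theorem flux_le0 {D : Set E} (harea : area0 D ≠ ⊤) {X : E → E} (hX : Adm0 X) :
    ∫ y in D, divE (fun z => rho0 z • X z) y ≤ (area0 D).toReal := by
  rw [← ENNReal.ofReal_le_iff_le_toReal harea]
  exact le_iSup (fun X : {X : E → E // ContDiff ℝ ∞ X ∧ HasCompactSupport X ∧
    ∀ y, mg0 y (X y) ≤ 1} => ENNReal.ofReal (∫ y in D, divE (fun z => rho0 z • X.1 z) y))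
    ⟨X, hX⟩

theorem contDiff_rhoX0 {X : E → E} (hX : ContDiff ℝ ∞ X) :
    ContDiff ℝ ∞ (fun z => rho0 z • X z) := (contDiff_rho0).smul hX

theorem hcs_rhoX0 {X : E → E} (hX : HasCompactSupport X) :
    HasCompactSupport (fun z => rho0 z • X z) := hX.smul_left

theorem flux_cutf_le0 {D : Set E} (hD : MeasurableSet D) (hfin : (mu0 : Measure E) D ≠ ⊤)
    (harea : area0 D ≠ ⊤) {C : ℝ} (hC : ∀ x, |deriv Real.smoothTransition x| ≤ C)
    {M : ℝ} (hM : 0 < M) {X : E → E} (hX : Adm0 X) :
    ∫ y, cutf D M y * divE (fun z => rho0 z • X z) y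
      ≤ (area0 D).toReal + C / M * ((mu0 : Measure E) D).toReal := by
  obtain ⟨hX1, hX2, hX3⟩ := hX
  have hZ := contDiff_rhoX0 hX1
  have hZc := hcs_rhoX0 hX2
  have hd := continuous_divE hZ
  have hdc := hcs_divE hZc
  have hadm : Adm0 (fun y => chi M y • X y) := by
    refine ⟨(contDiff_chi M).smul hX1, hX2.smul_left, fun y => ?_⟩
    rw [mg0_smul]
    have h0 := chi_nonneg M y
    have h1 := chi_le_one M y
    have h2 : chi M y ^ 2 ≤ 1 := by nlinarith
    have h3 := mg0_nonneg y (X y)
    have h4 := hX3 y
    nlinarith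
  have h1 := flux_le0 harea hadm
  have e1 : ∀ y, divE (fun z => rho0 z • (chi M z • X z)) y
      = chi M y * divE (fun z => rho0 z • X z) y
        + rho0 y * fderiv ℝ (chi M : E → ℝ) y (X y) := by
    intro y
    have : (fun z => rho0 z • (chi M z • X z)) = fun z => chi M z • (rho0 z • X z) := by
      funext z
      rw [smul_comm]
    rw [this, dl_divE_smul ((contDiff_chi M).differentiable (by simp) y)
      (hZ.differentiable (by simp) y), map_smul, smul_eq_mul]
  have i1 : Integrable (fun y => chi M y * divE (fun z => rho0 z • X z) y) :=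
    ((contDiff_chi M).continuous.mul hd).integrable_of_hasCompactSupport hdc.mul_left
  have i2 : Integrable (fun y => rho0 y * fderiv ℝ (chi M : E → ℝ) y (X y)) := by
    refine Continuous.integrable_of_hasCompactSupport ?_ ?_
    · exact (contDiff_rho0).continuous.mul
        (((contDiff_chi M).continuous_fderiv (by simp)).clm_apply hX1.continuous)
    · refine HasCompactSupport.mul_left ?_
      refine hX2.mono fun y hy => ?_
      rw [Function.mem_support] at hy ⊢
      intro h0
      exact hy (by rw [h0, map_zero])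
  have e2 : ∫ y, cutf D M y * divE (fun z => rho0 z • X z) y
      = ∫ y in D, chi M y * divE (fun z => rho0 z • X z) y := by
    rw [← integral_indicator hD]
    refine integral_congr_ae (Eventually.of_forall fun y => ?_)
    by_cases hy : y ∈ D
    · simp [cutf, hy]
    · simp [cutf, hy]
  have e3 : ∫ y in D, chi M y * divE (fun z => rho0 z • X z) y
      = (∫ y in D, divE (fun z => rho0 z • (chi M z • X z)) y)
        - ∫ y in D, rho0 y * fderiv ℝ (chi M : E → ℝ) y (X y) := by
    rw [← integral_sub]
    · refine integral_congr_ae (Eventually.of_forall fun y => ?_)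
      simp only [e1]
      ring
    · exact ((i1.add i2).congr (Eventually.of_forall fun y => (e1 y).symm)).integrableOn
    · exact i2.integrableOn
  have h2 : -∫ y in D, rho0 y * fderiv ℝ (chi M : E → ℝ) y (X y)
      ≤ C / M * ((mu0 : Measure E) D).toReal := by
    rw [← integral_rho0 hD, ← integral_const_mul, ← integral_neg]
    refine integral_mono i2.neg.integrableOn ((integrableOn_rho0 hD hfin).const_mul _)
      fun y => ?_
    simp only
    have h3 := abs_fderiv_chi0 hC hM y (X y)
    have h4 : Real.sqrt (mg0 y (X y)) ≤ 1 := Real.sqrt_le_one.mpr (hX3 y)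
    have hC0 : 0 ≤ C := (abs_nonneg _).trans (hC 0)
    have h5 : |fderiv ℝ (chi M : E → ℝ) y (X y)| ≤ C / M := by
      refine h3.trans ?_
      exact mul_le_of_le_one_right (by positivity) h4
    have h6 := neg_le_of_abs_le h5
    have h7 := (rho0_pos y).le
    nlinarith
  rw [e2, e3]
  linarith

/-! ### the smoothed gradient field -/

/-- The test field attached to `f`. -/
def tfield0 (f : E → ℝ) (e : ℝ) (y : E) : E :=
  -((Real.sqrt (⟪Cop0 y (gradient f y), gradient f y⟫_ℝ + e ^ 2))⁻¹ • Cop0 y (gradient f y))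

theorem adm_tfield0 {f : E → ℝ} (hf : ContDiff ℝ ∞ f) (hfc : HasCompactSupport f)
    {e : ℝ} (he : 0 < e) : Adm0 (tfield0 f e) := by
  have hg : ContDiff ℝ ∞ (fun y => gradient f y) := AreaAux.contDiff_gradient hf
  have hCg : ContDiff ℝ ∞ (fun y => Cop0 y (gradient f y)) := (contDiff_Cop0).clm_apply hg
  have hN : ContDiff ℝ ∞ (fun y => ⟪Cop0 y (gradient f y), gradient f y⟫_ℝ + e ^ 2) :=
    (hCg.inner ℝ hg).add contDiff_const
  have hpos : ∀ y, 0 < ⟪Cop0 y (gradient f y), gradient f y⟫_ℝ + e ^ 2 := fun y => by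
    have := inner_Cop0_nonneg y (gradient f y)
    positivity
  refine ⟨?_, ?_, fun y => ?_⟩
  · exact (((hN.sqrt fun y => (hpos y).ne').inv fun y =>
      (Real.sqrt_pos.mpr (hpos y)).ne').smul hCg).neg
  · have h := hcs_gradient hfc
    refine h.mono fun y hy => ?_
    rw [Function.mem_support] at hy ⊢
    intro h0
    apply hy
    simp only [tfield0, h0, map_zero, smul_zero, neg_zero]
  · have h1 : mg0 y (tfield0 f e y)
        = (Real.sqrt (⟪Cop0 y (gradient f y), gradient f y⟫_ℝ + e ^ 2))⁻¹ ^ 2
          * ⟪Cop0 y (gradient f y), gradient f y⟫_ℝ := by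
      rw [tfield0, ← neg_smul, mg0_smul, mg0_Cop0, neg_sq]
    rw [h1, inv_pow, Real.sq_sqrt (hpos y).le, inv_mul_le_iff₀ (hpos y)]
    have := sq_nonneg e
    linarith

theorem inner_tfield0 (f : E → ℝ) (e : ℝ) (y : E) :
    -(fderiv ℝ f y (tfield0 f e y))
      = an0 y (gradient f y) ^ 2 / Real.sqrt (an0 y (gradient f y) ^ 2 + e ^ 2) := by
  rw [tfield0, map_neg, neg_neg, map_smul, ← AreaAux.inner_gradient, an0_sq, smul_eq_mul,
    real_inner_comm]
  ring

/-- Total variation of a mollified function. -/
theorem TV0_moll_le (φ : ContDiffBump (0 : E)) {u : E → ℝ} (hu : Measurable u)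
    (hu0 : ∀ x, 0 ≤ u x) (hu1 : ∀ x, u x ≤ 1) {R : ℝ}
    (huR : ∀ x, R ≤ ‖x‖ → u x = 0) (hφ : φ.rOut ≤ 1) {B : ℝ}
    (hB : ∀ X, Adm0 X → ∫ y, u y * divE (fun z => rho0 z • X z) y ≤ B) {κ : ℝ} (hκ : 0 < κ)
    (hmg : ∀ x ∈ Metric.closedBall (0 : E) (R + 3), ∀ y ∈ Metric.closedBall (0 : E) (R + 3),
      dist x y < φ.rOut → ∀ v, rho0 x ^ 2 * mg0 y v ≤ (1 + κ) * (rho0 y ^ 2 * mg0 x v))
    {e : ℝ} (he : 0 < e) :
    TV0 (moll φ u) ≤ (1 + κ) * B
      + e * ((mu0 : Measure E) (Metric.closedBall (0 : E) (R + 1))).toReal := by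
  have hui : Integrable u := by
    refine Integrable.mono' (g := (Metric.closedBall (0 : E) R).indicator fun _ => (1 : ℝ))
      ?_ hu.aestronglyMeasurable (Eventually.of_forall fun x => ?_)
    · exact (continuous_const.continuousOn.integrableOn_compact
        (isCompact_closedBall (0 : E) R)).integrable_indicator
        Metric.isClosed_closedBall.measurableSet
    · rw [Real.norm_eq_abs, abs_of_nonneg (hu0 x)]
      by_cases hx : x ∈ Metric.closedBall (0 : E) R
      · simp [hx, hu1 x]
      · rw [mem_closedBall_zero_iff, not_le] at hx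
        rw [huR x hx.le]
        exact indicator_nonneg (fun _ _ => zero_le_one) x
  set f := moll φ u with hf
  have hfs : ContDiff ℝ ∞ f := contDiff_moll_left φ hui.locallyIntegrable
  have hfz : ∀ x, R + 1 ≤ ‖x‖ → f x = 0 := fun x hx =>
    moll_zero_off φ huR x (by linarith)
  have hfc : HasCompactSupport f := by
    refine HasCompactSupport.intro (isCompact_closedBall (0 : E) (R + 1)) fun x hx => ?_
    rw [mem_closedBall_zero_iff, not_le] at hx
    exact hfz x hx.le
  set X := tfield0 f e with hX
  have hadm : Adm0 X := adm_tfield0 hfs hfc he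
  obtain ⟨hX1, hX2, hX3⟩ := hadm
  have hZ := contDiff_rhoX0 hX1
  have hZc := hcs_rhoX0 hX2
  set Z : E → E := fun z => rho0 z • X z with hZdef
  -- gradient vanishes outside
  have hgz : ∀ x, R + 1 < ‖x‖ → gradient f x = 0 := by
    intro x hx
    have : f =ᶠ[𝓝 x] fun _ => (0 : ℝ) := by
      have ho : IsOpen {x : E | R + 1 < ‖x‖} := isOpen_lt continuous_const continuous_norm
      filter_upwards [ho.mem_nhds hx] with y hy
      exact hfz y (le_of_lt hy)
    rw [gradient, this.fderiv_eq]
    simp
  -- the flux of the test field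
  have e1 : ∫ y, f y * divE Z y
      = ∫ y, rho0 y * (an0 y (gradient f y) ^ 2
        / Real.sqrt (an0 y (gradient f y) ^ 2 + e ^ 2)) := by
    rw [dl_integral_mul_divE (hfs.of_le (by exact_mod_cast le_top)) hfc
      (hZ.of_le (by exact_mod_cast le_top)), ← integral_neg]
    refine integral_congr_ae (Eventually.of_forall fun y => ?_)
    simp only [hZdef, map_smul, smul_eq_mul]
    rw [← inner_tfield0]
    ring
  have e2 : ∫ y, f y * divE Z y = ∫ y, u y * divE (moll φ Z) y := by
    rw [hf, integral_moll_mul φ hu hui (fun x => by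
      rw [abs_of_nonneg (hu0 x)]; exact hu1 x) (continuous_divE hZ) (hcs_divE hZc)]
    refine integral_congr_ae (Eventually.of_forall fun y => ?_)
    simp only [divE_moll φ hZ hZc y]
  -- the mollified field
  have hM1 : ContDiff ℝ ∞ (moll φ Z) := contDiff_moll φ hZ
  have hXz : ∀ x, R + 1 < ‖x‖ → X x = 0 := by
    intro x hx
    simp [hX, tfield0, hgz x hx]
  have hMz : ∀ x, R + 2 < ‖x‖ → moll φ Z x = 0 := by
    intro x hx
    refine moll_eq_zero φ fun t ht => ?_
    have h1 := norm_sub_norm_le x t
    have h2 : R + 1 < ‖x - t‖ := by linarith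
    simp [hZdef, hXz _ h2]
  have hMc : HasCompactSupport (moll φ Z) := by
    refine HasCompactSupport.intro (isCompact_closedBall (0 : E) (R + 2)) fun x hx => ?_
    rw [mem_closedBall_zero_iff, not_le] at hx
    exact hMz x hx
  have hκ1 : 0 < 1 + κ := by linarith
  set s := Real.sqrt (1 + κ) with hs
  have hs0 : 0 < s := Real.sqrt_pos.mpr hκ1
  have hs2 : s ^ 2 = 1 + κ := Real.sq_sqrt hκ1.le
  have hs1 : 1 ≤ s := by
    rw [hs, Real.one_le_sqrt]
    linarith
  have hmgM : ∀ y, mg0 y (moll φ Z y) ≤ (1 + κ) * rho0 y ^ 2 := by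
    intro y
    by_cases hy : R + 2 < ‖y‖
    · rw [hMz y hy]
      have h0 : mg0 y (0 : E) = 0 := by simp [mg0]
      rw [h0]
      have := rho0_pos y
      positivity
    · push Not at hy
      refine mg0_moll_le φ hZ.continuous y fun t ht => ?_
      have hx : y - t ∈ Metric.closedBall (0 : E) (R + 3) := by
        rw [mem_closedBall_zero_iff]
        have := norm_sub_le y t
        linarith
      have hy' : y ∈ Metric.closedBall (0 : E) (R + 3) := by
        rw [mem_closedBall_zero_iff]
        linarith
      have hd : dist (y - t) y < φ.rOut := by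
        rw [dist_eq_norm]
        simpa using ht
      have h1 := hmg _ hx _ hy' hd (X (y - t))
      have h2 := hX3 (y - t)
      have h3 : 0 < rho0 y ^ 2 := pow_pos (rho0_pos y) 2
      have e3 : mg0 y (Z (y - t)) = rho0 (y - t) ^ 2 * mg0 y (X (y - t)) := by
        rw [hZdef, mg0_smul]
      rw [e3]
      refine h1.trans ?_
      have : rho0 y ^ 2 * mg0 (y - t) (X (y - t)) ≤ rho0 y ^ 2 := by nlinarith
      nlinarith
  have hadm2 : Adm0 (fun y => (s⁻¹ * (rho0 y)⁻¹) • moll φ Z y) := by
    refine ⟨?_, hMc.smul_left, fun y => ?_⟩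
    · exact (contDiff_const.mul ((contDiff_rho0).inv fun y => (rho0_pos y).ne')).smul hM1
    · rw [mg0_smul]
      have h1 := hmgM y
      have h3 : 0 < rho0 y ^ 2 := pow_pos (rho0_pos y) 2
      have e3 : (s⁻¹ * (rho0 y)⁻¹) ^ 2 = ((1 + κ) * rho0 y ^ 2)⁻¹ := by
        rw [mul_pow, inv_pow, inv_pow, hs2, mul_inv]
      rw [e3, inv_mul_le_iff₀ (by positivity)]
      linarith
  have h4 := hB _ hadm2
  have e4 : (fun z => rho0 z • ((s⁻¹ * (rho0 z)⁻¹) • moll φ Z z)) = fun z => s⁻¹ • moll φ Z z := by
    funext z
    rw [smul_smul]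
    congr 1
    have := (rho0_pos z).ne'
    field_simp
  have e5 : ∀ y, divE (fun z => s⁻¹ • moll φ Z z) y = s⁻¹ * divE (moll φ Z) y := by
    intro y
    rw [divE, divE, fderiv_fun_const_smul (hM1.differentiable (by simp) y)]
    simp [tr]
  have h5 : ∫ y, u y * divE (moll φ Z) y ≤ s * B := by
    have h6 : ∫ y, u y * divE (fun z => rho0 z • ((s⁻¹ * (rho0 z)⁻¹) • moll φ Z z)) y
        = s⁻¹ * ∫ y, u y * divE (moll φ Z) y := by
      rw [e4, ← integral_const_mul]
      refine integral_congr_ae (Eventually.of_forall fun y => ?_)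
      simp only [e5]
      ring
    rw [h6] at h4
    rwa [inv_mul_le_iff₀ hs0] at h4
  have hB0 : 0 ≤ B := by
    have h0 : Adm0 (fun _ : E => (0 : E)) :=
      ⟨contDiff_const, HasCompactSupport.zero, fun y => by simp [mg0]⟩
    have := hB _ h0
    have e0 : ∀ y : E, divE (fun z : E => rho0 z • (0 : E)) y = 0 := by
      intro y
      simp [divE, tr]
    simp only [e0, mul_zero, integral_zero] at this
    exact this
  have h6 : ∫ y, f y * divE Z y ≤ (1 + κ) * B := by
    rw [e2]
    refine h5.trans ?_
    have : s ≤ 1 + κ := by nlinarith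
    exact mul_le_mul_of_nonneg_right this hB0
  -- pointwise comparison
  have hKm : MeasurableSet (Metric.closedBall (0 : E) (R + 1)) :=
    Metric.isClosed_closedBall.measurableSet
  have hgc : Continuous (fun y => gradient f y) := (AreaAux.contDiff_gradient hfs).continuous
  have hac : Continuous (fun y => an0 y (gradient f y)) :=
    (continuous_an0).comp (continuous_id.prodMk hgc)
  have hanc : HasCompactSupport (fun y => an0 y (gradient f y)) := by
    refine (hcs_gradient hfc).mono fun y hy => ?_
    rw [Function.mem_support] at hy ⊢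
    intro h0
    apply hy
    rw [h0]
    simp [an0]
  have i1 : Integrable (fun y => rho0 y * an0 y (gradient f y)) :=
    ((contDiff_rho0).continuous.mul hac).integrable_of_hasCompactSupport hanc.mul_left
  have hsq : Continuous (fun y => an0 y (gradient f y) ^ 2
        / Real.sqrt (an0 y (gradient f y) ^ 2 + e ^ 2)) := by
    refine (hac.pow 2).div ((hac.pow 2).add continuous_const).sqrt fun y => ?_
    exact (Real.sqrt_pos.mpr (by positivity)).ne'
  have i2 : Integrable (fun y => rho0 y * (an0 y (gradient f y) ^ 2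
        / Real.sqrt (an0 y (gradient f y) ^ 2 + e ^ 2))) := by
    refine ((contDiff_rho0).continuous.mul hsq).integrable_of_hasCompactSupport ?_
    refine HasCompactSupport.mul_left (hanc.mono fun y hy => ?_)
    rw [Function.mem_support] at hy ⊢
    intro h0
    apply hy
    simp [h0]
  have hKfin : mu0 (Metric.closedBall (0 : E) (R + 1)) ≠ ⊤ := by
    rw [mu0, withDensity_apply _ hKm]
    have := ((contDiff_rho0).continuous.continuousOn.integrableOn_compact
      (isCompact_closedBall (0 : E) (R + 1)) (μ := volume)).2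
    rw [hasFiniteIntegral_iff_ofReal (Eventually.of_forall fun y => (rho0_pos y).le)] at this
    exact this.ne
  have i3 : Integrable (fun y => e * (Metric.closedBall (0 : E) (R + 1)).indicator (rho0 : E → ℝ) y) :=
    ((integrableOn_rho0 hKm hKfin).integrable_indicator hKm).const_mul e
  have e6 : TV0 f = ∫ y, rho0 y * an0 y (gradient f y) := by
    rw [TV0, int_mu0]
  have h7 : ∫ y, rho0 y * an0 y (gradient f y)
      ≤ ∫ y, (rho0 y * (an0 y (gradient f y) ^ 2
        / Real.sqrt (an0 y (gradient f y) ^ 2 + e ^ 2))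
        + e * (Metric.closedBall (0 : E) (R + 1)).indicator (rho0 : E → ℝ) y) := by
    refine integral_mono i1 (i2.add i3) fun y => ?_
    simp only
    by_cases hy : y ∈ Metric.closedBall (0 : E) (R + 1)
    · rw [indicator_of_mem hy]
      have h8 := real_aux (an0_nonneg y (gradient f y)) he
      have h9 := rho0_pos y
      nlinarith
    · rw [indicator_of_notMem hy]
      rw [mem_closedBall_zero_iff, not_le] at hy
      have h0 : an0 y (gradient f y) = 0 := by
        rw [hgz y hy]
        simp [an0]
      simp [h0]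
  rw [integral_add i2 i3, integral_const_mul, integral_indicator hKm, integral_rho0 hKm,
    ← e1] at h7
  rw [e6]
  linarith

/-! ### convergence -/

theorem tendsto_moll0 {u : E → ℝ} (hu : Measurable u)
    (hu0 : ∀ x, 0 ≤ u x) (hu1 : ∀ x, u x ≤ 1) {R : ℝ}
    (huR : ∀ x, R ≤ ‖x‖ → u x = 0) (hui : LocallyIntegrable u) :
    Tendsto (fun n => ∫ y, rho0 y * |moll (bump n) u y - u y|) atTop (𝓝 0) := by
  have hKm : MeasurableSet (Metric.closedBall (0 : E) (R + 1)) :=
    Metric.isClosed_closedBall.measurableSet
  have hb : Integrable ((Metric.closedBall (0 : E) (R + 1)).indicator (rho0 : E → ℝ)) :=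
    ((contDiff_rho0).continuous.continuousOn.integrableOn_compact
      (isCompact_closedBall (0 : E) (R + 1))).integrable_indicator hKm
  have hae := ContDiffBump.ae_convolution_tendsto_right_of_locallyIntegrable
    (μ := (volume : Measure E)) (φ := fun n : ℕ => bump (E := E) n) (l := atTop) (K := 2)
    tendsto_bump (Eventually.of_forall fun n => by
      change (2 : ℝ) / (n + 2) ≤ 2 * (1 / (n + 2))
      rw [mul_one_div]) hui
  have h0 : (0 : ℝ) = ∫ _ : E, (0 : ℝ) := by simp
  rw [h0]
  refine tendsto_integral_of_dominated_convergence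
    ((Metric.closedBall (0 : E) (R + 1)).indicator (rho0 : E → ℝ)) (fun n => ?_) hb (fun n => ?_) ?_
  · have h1 : Continuous (moll (bump n) u) := (contDiff_moll_left (bump n) hui).continuous
    exact ((contDiff_rho0).continuous.measurable.mul
      (h1.measurable.sub hu).abs).aestronglyMeasurable
  · refine Eventually.of_forall fun y => ?_
    rw [Real.norm_eq_abs, abs_mul, abs_abs, abs_of_pos (rho0_pos y)]
    have m0 := moll_nonneg (bump n) hu0 y
    have m1 := moll_le_one (bump n) hu0 hu1 y
    have h1 : |moll (bump n) u y - u y| ≤ 1 := by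
      rw [abs_le]
      constructor
      · linarith [hu1 y]
      · linarith [hu0 y]
    by_cases hy : y ∈ Metric.closedBall (0 : E) (R + 1)
    · rw [indicator_of_mem hy]
      exact mul_le_of_le_one_right (rho0_pos y).le h1
    · rw [indicator_of_notMem hy]
      rw [mem_closedBall_zero_iff, not_le] at hy
      have e1 : moll (bump n) u y = 0 :=
        moll_zero_off (bump n) huR y (by linarith [bump_le (E := E) n])
      have e2 : u y = 0 := huR y (by linarith)
      rw [e1, e2]
      simp
  · filter_upwards [hae] with y hy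
    have h1 : Tendsto (fun n => moll (bump n) u y) atTop (𝓝 (u y)) := hy
    have h2 : Tendsto (fun n => rho0 y * |moll (bump n) u y - u y|) atTop
        (𝓝 (rho0 y * |u y - u y|)) := (h1.sub_const _).abs.const_mul _
    simpa using h2

theorem tendsto_cutf0 {D : Set E} (hD : MeasurableSet D) (hfin : (mu0 : Measure E) D ≠ ⊤) :
    Tendsto (fun M : ℝ => ∫ y, rho0 y * |cutf D M y - D.indicator (fun _ => (1 : ℝ)) y|)
      atTop (𝓝 0) := by
  have h0 : (0 : ℝ) = ∫ _ : E, (0 : ℝ) := by simp
  rw [h0]
  refine tendsto_integral_filter_of_dominated_convergence (D.indicator (rho0 : E → ℝ))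
    (Eventually.of_forall fun M => ?_) (Eventually.of_forall fun M => ?_)
    ((integrableOn_rho0 hD hfin).integrable_indicator hD) (Eventually.of_forall fun y => ?_)
  · exact ((contDiff_rho0).continuous.measurable.mul
      ((measurable_cutf hD M).sub (measurable_const.indicator hD)).abs).aestronglyMeasurable
  · refine Eventually.of_forall fun y => ?_
    rw [Real.norm_eq_abs, abs_mul, abs_abs, abs_of_pos (rho0_pos y)]
    by_cases hy : y ∈ D
    · simp only [cutf, indicator_of_mem hy, mul_one]
      refine mul_le_of_le_one_right (rho0_pos y).le ?_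
      rw [abs_le]
      constructor
      · linarith [chi_nonneg M y]
      · linarith [chi_le_one M y]
    · simp [cutf, indicator_of_notMem hy]
  · refine tendsto_const_nhds.congr' ?_
    filter_upwards [eventually_ge_atTop (max 1 (Real.log (uu y)))] with M hM
    have hM0 : 0 < M := lt_of_lt_of_le one_pos ((le_max_left _ _).trans hM)
    rw [cutf, chi_eq_one hM0 ((le_max_right _ _).trans hM)]
    simp

end Mol0

open Mol Mol0

/-- Approximation of a set of finite volume and perimeter by test functions. -/
theorem exists_approx0 {D : Set E} (hD : MeasurableSet D) (hfin : (mu0 : Measure E) D ≠ ⊤)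
    (harea : area0 D ≠ ⊤) {ε : ℝ} (hε : 0 < ε) :
    ∃ f : E → ℝ, Fn f ∧ (∀ y, f y ≤ 1) ∧ TV0 f ≤ (area0 D).toReal + ε ∧
      ∫ y, |f y - D.indicator (fun _ => (1 : ℝ)) y| ∂(mu0 : Measure E) ≤ ε := by
  obtain ⟨C, hC0, hC⟩ := exists_bound_st
  set A := (area0 D).toReal with hA
  have hA0 : 0 ≤ A := ENNReal.toReal_nonneg
  have hDm0 : 0 ≤ ((mu0 : Measure E) D).toReal := ENNReal.toReal_nonneg
  -- choice of the cutoff
  obtain ⟨M, hM0, hM1, hM2⟩ : ∃ M : ℝ, 0 < M ∧ C / M * ((mu0 : Measure E) D).toReal ≤ ε / 4 ∧
      ∫ y, rho0 y * |cutf D M y - D.indicator (fun _ => (1 : ℝ)) y| < ε / 2 := by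
    have h1 : ∀ᶠ M : ℝ in atTop,
        ∫ y, rho0 y * |cutf D M y - D.indicator (fun _ => (1 : ℝ)) y| < ε / 2 :=
      (tendsto_cutf0 hD hfin).eventually (gt_mem_nhds (half_pos hε))
    have h2 : ∀ᶠ M : ℝ in atTop, 4 * C * ((mu0 : Measure E) D).toReal / ε ≤ M := eventually_ge_atTop _
    obtain ⟨M, ⟨h3, h4⟩, h5⟩ := ((h1.and h2).and (eventually_gt_atTop 0)).exists
    refine ⟨M, h5, ?_, h3⟩
    rw [div_le_iff₀ hε] at h4
    rw [div_mul_eq_mul_div, div_le_iff₀ h5]
    linarith
  set u := cutf D M with hu
  have hum : Measurable u := measurable_cutf hD M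
  have hu0 : ∀ x, 0 ≤ u x := cutf_nonneg D M
  have hu1 : ∀ x, u x ≤ 1 := cutf_le_one D M
  set R := Real.exp (2 * M) with hR
  have huR : ∀ x, R ≤ ‖x‖ → u x = 0 := fun x hx => by
    rw [hu, cutf, chi_eq_zero hM0 hx, zero_mul]
  have hui : Integrable u := by
    refine Integrable.mono' (g := (Metric.closedBall (0 : E) R).indicator fun _ => (1 : ℝ))
      ?_ hum.aestronglyMeasurable (Eventually.of_forall fun x => ?_)
    · exact (continuous_const.continuousOn.integrableOn_compact
        (isCompact_closedBall (0 : E) R)).integrable_indicator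
        Metric.isClosed_closedBall.measurableSet
    · rw [Real.norm_eq_abs, abs_of_nonneg (hu0 x)]
      by_cases hx : x ∈ Metric.closedBall (0 : E) R
      · simp [hx, hu1 x]
      · rw [mem_closedBall_zero_iff, not_le] at hx
        rw [huR x hx.le]
        exact indicator_nonneg (fun _ _ => zero_le_one) x
  have hB : ∀ X, Adm0 X → ∫ y, u y * divE (fun z => rho0 z • X z) y ≤ A + ε / 4 := by
    intro X hX
    have := flux_cutf_le0 hD hfin harea hC hM0 hX
    linarith
  -- comparison of the metrics
  set κ := ε / (4 * (A + ε)) with hκ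
  have hκ0 : 0 < κ := by positivity
  obtain ⟨δ, hδ, hδ2⟩ := exists_delta_mg0 (isCompact_closedBall (0 : E) (R + 3)) hκ0
  set m := ((mu0 : Measure E) (Metric.closedBall (0 : E) (R + 1))).toReal with hm
  have hm0 : 0 ≤ m := ENNReal.toReal_nonneg
  set e := ε / (4 * (m + 1)) with he
  have he0 : 0 < e := by positivity
  have t1 := (tendsto_moll0 hum hu0 hu1 huR hui.locallyIntegrable).eventually
    (gt_mem_nhds (half_pos hε))
  have t2 := (tendsto_bump (E := E)).eventually (gt_mem_nhds hδ)
  obtain ⟨n, hn1, hn2⟩ := (t1.and t2).exists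
  have hTV := TV0_moll_le (bump n) hum hu0 hu1 huR (bump_le n) hB hκ0
    (fun x hx y hy hxy v => hδ2 x hx y hy (hxy.trans hn2) v) he0
  have hfs : ContDiff ℝ ∞ (moll (bump n) u) := contDiff_moll_left _ hui.locallyIntegrable
  refine ⟨moll (bump n) u, ⟨hfs, ?_, moll_nonneg _ hu0⟩, moll_le_one _ hu0 hu1, ?_, ?_⟩
  · refine HasCompactSupport.intro (isCompact_closedBall (0 : E) (R + 1)) fun x hx => ?_
    rw [mem_closedBall_zero_iff, not_le] at hx
    exact moll_zero_off _ huR x (by linarith [bump_le (E := E) n])
  · refine hTV.trans ?_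
    have h1 : κ * (A + ε / 4) ≤ ε / 4 := by
      rw [hκ, div_mul_eq_mul_div, div_le_iff₀ (by positivity)]
      nlinarith
    have h2 : e * m ≤ ε / 4 := by
      rw [he, div_mul_eq_mul_div, div_le_iff₀ (by positivity)]
      nlinarith
    nlinarith
  · rw [int_mu0]
    have hcf : Continuous (moll (bump n) u) := hfs.continuous
    have i1 : Integrable (fun y => rho0 y * |moll (bump n) u y - u y|) := by
      by_contra hcon
      -- bounded with bounded support
      apply hcon
      refine Integrable.mono' (g := (Metric.closedBall (0 : E) (R + 1)).indicator (rho0 : E → ℝ)) ?_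
        ((contDiff_rho0).continuous.measurable.mul
          (hcf.measurable.sub hum).abs).aestronglyMeasurable (Eventually.of_forall fun y => ?_)
      · exact ((contDiff_rho0).continuous.continuousOn.integrableOn_compact
          (isCompact_closedBall (0 : E) (R + 1))).integrable_indicator
          Metric.isClosed_closedBall.measurableSet
      · rw [Real.norm_eq_abs, abs_mul, abs_abs, abs_of_pos (rho0_pos y)]
        have m0 := moll_nonneg (bump n) hu0 y
        have m1 := moll_le_one (bump n) hu0 hu1 y
        have h1 : |moll (bump n) u y - u y| ≤ 1 := by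
          rw [abs_le]
          constructor
          · linarith [hu1 y]
          · linarith [hu0 y]
        by_cases hy : y ∈ Metric.closedBall (0 : E) (R + 1)
        · rw [indicator_of_mem hy]
          exact mul_le_of_le_one_right (rho0_pos y).le h1
        · rw [indicator_of_notMem hy]
          rw [mem_closedBall_zero_iff, not_le] at hy
          have e1 : moll (bump n) u y = 0 :=
            moll_zero_off (bump n) huR y (by linarith [bump_le (E := E) n])
          have e2 : u y = 0 := huR y (by linarith)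
          rw [e1, e2]
          simp
    have i2 : Integrable (fun y => rho0 y * |u y - D.indicator (fun _ => (1 : ℝ)) y|) := by
      refine Integrable.mono' (g := D.indicator (rho0 : E → ℝ))
        ((integrableOn_rho0 hD hfin).integrable_indicator hD)
        ((contDiff_rho0).continuous.measurable.mul
          (hum.sub (measurable_const.indicator hD)).abs).aestronglyMeasurable
        (Eventually.of_forall fun y => ?_)
      rw [Real.norm_eq_abs, abs_mul, abs_abs, abs_of_pos (rho0_pos y)]
      by_cases hy : y ∈ D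
      · simp only [hu, cutf, indicator_of_mem hy, mul_one]
        refine mul_le_of_le_one_right (rho0_pos y).le ?_
        rw [abs_le]
        constructor
        · linarith [chi_nonneg M y]
        · linarith [chi_le_one M y]
      · simp [hu, cutf, indicator_of_notMem hy]
    have h3 : ∫ y, rho0 y * |moll (bump n) u y - D.indicator (fun _ => (1 : ℝ)) y|
        ≤ ∫ y, (rho0 y * |moll (bump n) u y - u y|
          + rho0 y * |u y - D.indicator (fun _ => (1 : ℝ)) y|) := by
      refine integral_mono_of_nonneg (Eventually.of_forall fun y =>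
        mul_nonneg (rho0_pos y).le (abs_nonneg _)) (i1.add i2) (Eventually.of_forall fun y => ?_)
      simp only
      rw [← mul_add]
      exact mul_le_mul_of_nonneg_left (abs_sub_le _ _ _) (rho0_pos y).le
    rw [integral_add i1 i2] at h3
    linarith

/-- Integrability of the difference. -/
theorem Mol0.integrable_sub_ind0 {D : Set E} (hD : MeasurableSet D)
    (hfin : (mu0 : Measure E) D ≠ ⊤) {f : E → ℝ} (hf : Fn f) :
    Integrable (fun y => |f y - D.indicator (fun _ => (1 : ℝ)) y|) (mu0 : Measure E) := by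
  have i1 : Integrable f (mu0 : Measure E) := by
    rw [integrable_mu0_iff]
    exact ((contDiff_rho0).continuous.mul hf.1.continuous).integrable_of_hasCompactSupport
      hf.2.1.mul_left
  have i2 : Integrable (D.indicator (fun _ => (1 : ℝ))) (mu0 : Measure E) :=
    (integrable_indicator_iff hD).mpr (integrableOn_const hfin)
  exact (i1.sub i2).abs

end

end Pool.Agent.Work.MP_3b24f6_gt
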