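import Pool.Agent.Work.MP_3b24f6_gt.H0.PolS

/-!
# Polarisation is an `L¹` contraction; lists of polarisations of smooth functions
-/

set_option autoImplicit false
set_option linter.unusedSectionVars false

open MeasureTheory Set Filter Topology
open scoped ContDiff InnerProductSpace

namespace Pool.Agent.Work.MP_3b24f6_gt

noncomputable section

open PS Mol0

variable {E : Type*} [NormedAddCommGroup E] [InnerProductSpace ℝ E] [FiniteDimensional ℝ E]
  [MeasurableSpace E] [BorelSpace E]

/-- Polarisation with respect to an abstract reflection. -/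
def polG (s : E → E) (l : E → ℝ) (f : E → ℝ) (y : E) : ℝ :=
  if l y ≤ 0 then max (f y) (f (s y)) else min (f y) (f (s y))

theorem pol_eq_polG (a : E) (b : ℝ) (f : E → ℝ) : pol a b f = polG (refl a b) (ell a b) f := rfl

namespace PS

theorem max_min_sub (x x' z z' : ℝ) :
    |max x x' - max z z'| + |min x x' - min z z'| ≤ |x - z| + |x' - z'| := by
  rcases le_total x x' with h | h <;> rcases le_total z z' with h' | h' <;>
  simp only [max_eq_right h, max_eq_left h, min_eq_left h, min_eq_right h, max_eq_right h',
    max_eq_left h', min_eq_left h', min_eq_right h'] <;>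
  rcases abs_cases (x - z) with ⟨e1, _⟩ | ⟨e1, _⟩ <;>
  rcases abs_cases (x' - z') with ⟨e2, _⟩ | ⟨e2, _⟩ <;>
  rcases abs_cases (x' - z) with ⟨e3, _⟩ | ⟨e3, _⟩ <;>
  rcases abs_cases (x - z') with ⟨e4, _⟩ | ⟨e4, _⟩ <;>
  linarith

end PS

section pol
variable {e : ℝ} {s : E → E} {l : E → ℝ} {f g : E → ℝ}

theorem IsRefl.emb (h : IsRefl s l) : MeasurableEmbedding s := by
  have hinj : Function.Injective s := fun a b hab => by rw [← h.inv a, hab, h.inv]
  exact h.smooth.continuous.measurableEmbedding hinj

theorem abs_polS_sub_polG (he : 0 < e) (h : IsRefl s l) (y : E) :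
    |polS e s l f y - polG s l f y| ≤ 2 * e := by
  rcases lt_trichotomy (l y) 0 with hl | hl | hl
  · rw [polS, polG, if_pos hl, if_pos hl.le]
    have h1 := te_le he (f (s y) - f y)
    have h2 := le_te he (f (s y) - f y)
    have h3 : max (f y) (f (s y)) = f y + max (f (s y) - f y) 0 := by
      rcases le_total (f y) (f (s y)) with h | h
      · rw [max_eq_right h, max_eq_left (by linarith)]; ring
      · rw [max_eq_left h, max_eq_right (by linarith)]; ring
    rw [h3, abs_le]
    constructor <;> linarith
  · rw [polS, polG, if_neg (by rw [hl]; exact lt_irrefl _), if_pos hl.le, h.fix y hl, sub_self,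
      te_zero he he.le, max_self, sub_zero, sub_self, abs_zero]
    linarith
  · rw [polS, polG, if_neg (not_lt.mpr hl.le), if_neg (not_le.mpr hl)]
    have h1 := te_le he (f y - f (s y))
    have h2 := le_te he (f y - f (s y))
    have h3 : min (f y) (f (s y)) = f y - max (f y - f (s y)) 0 := by
      rcases le_total (f y) (f (s y)) with h | h
      · rw [min_eq_left h, max_eq_right (by linarith)]; ring
      · rw [min_eq_right h, max_eq_left (by linarith)]; ring
    rw [h3, abs_le]
    constructor <;> linarith

theorem polG_pair (h : IsRefl s l) (y : E) :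
    |polG s l f y - polG s l g y| + |polG s l f (s y) - polG s l g (s y)|
      ≤ |f y - g y| + |f (s y) - g (s y)| := by
  unfold polG
  rw [h.inv, h.l_s]
  rcases lt_trichotomy (l y) 0 with hl | hl | hl
  · rw [if_pos hl.le, if_pos hl.le, if_neg (by linarith), if_neg (by linarith),
      min_comm (f (s y)), min_comm (g (s y))]
    exact max_min_sub _ _ _ _
  · rw [hl, h.fix y hl]; simp
  · rw [if_neg (by linarith), if_neg (by linarith), if_pos (by linarith), if_pos (by linarith),
      max_comm (f (s y)), max_comm (g (s y)), add_comm]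
    exact max_min_sub _ _ _ _

theorem measurable_polG (h : IsRefl s l) (hf : Measurable f) : Measurable (polG s l f) :=
  Measurable.ite (measurableSet_le h.cont.measurable measurable_const)
    (hf.max (hf.comp h.smooth.continuous.measurable))
    (hf.min (hf.comp h.smooth.continuous.measurable))

theorem integrable_polG (h : IsRefl s l) (hf : Measurable f)
    (hi : Integrable f (mu0 : Measure E)) : Integrable (polG s l f) (mu0 : Measure E) := by
  have h2 : Integrable (fun y => f (s y)) (mu0 : Measure E) :=
    (h.mp.integrable_comp_emb h.emb).mpr hi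
  refine (hi.abs.add h2.abs).mono' (measurable_polG h hf).aestronglyMeasurable
    (Eventually.of_forall fun y => ?_)
  rw [Real.norm_eq_abs]
  simp only [Pi.add_apply]
  unfold polG
  split_ifs
  · rcases max_choice (f y) (f (s y)) with h | h <;> rw [h] <;>
      linarith [abs_nonneg (f y), abs_nonneg (f (s y))]
  · rcases min_choice (f y) (f (s y)) with h | h <;> rw [h] <;>
      linarith [abs_nonneg (f y), abs_nonneg (f (s y))]

theorem integral_polG_sub_le (h : IsRefl s l) (hf : Measurable f) (hg : Measurable g)
    (hfi : Integrable f (mu0 : Measure E)) (hgi : Integrable g (mu0 : Measure E)) :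
    ∫ y, |polG s l f y - polG s l g y| ∂(mu0 : Measure E) ≤ ∫ y, |f y - g y| ∂(mu0 : Measure E) := by
  have i1 := ((integrable_polG h hf hfi).sub (integrable_polG h hg hgi)).abs
  have i2 := (hfi.sub hgi).abs
  simp only [Pi.sub_apply] at i1 i2
  have i1' : Integrable (fun y => |polG s l f (s y) - polG s l g (s y)|) (mu0 : Measure E) :=
    (h.mp.integrable_comp_emb h.emb).mpr i1
  have i2' : Integrable (fun y => |f (s y) - g (s y)|) (mu0 : Measure E) :=
    (h.mp.integrable_comp_emb h.emb).mpr i2
  have e1 := h.mp.integral_comp h.emb (fun y => |polG s l f y - polG s l g y|)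
  have e2 := h.mp.integral_comp h.emb (fun y => |f y - g y|)
  have key : ∫ y, (|polG s l f y - polG s l g y| + |polG s l f (s y) - polG s l g (s y)|)
        ∂(mu0 : Measure E)
      ≤ ∫ y, (|f y - g y| + |f (s y) - g (s y)|) ∂(mu0 : Measure E) :=
    integral_mono (i1.add i1') (i2.add i2') fun y => polG_pair h y
  rw [integral_add i1 i1', integral_add i2 i2', e1, e2] at key
  linarith

theorem fn_measurable (hf : Fn f) : Measurable f := hf.1.continuous.measurable

theorem fn_integrable (hf : Fn f) : Integrable f (mu0 : Measure E) := by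
  rw [integrable_mu0_iff]
  exact (contDiff_rho0.continuous.mul hf.1.continuous).integrable_of_hasCompactSupport
    hf.2.1.mul_left

/-- The smooth polarisation approximates the polarisation in `L¹`. -/
theorem exists_polS (h : IsRefl s l) (hf : Fn f) {δ : ℝ} (hδ : 0 < δ) :
    ∃ e, 0 < e ∧ ∫ y, |polS e s l f y - polG s l f y| ∂(mu0 : Measure E) ≤ δ := by
  set K : Set E := tsupport f ∪ s ⁻¹' (tsupport f) with hKd
  have hK : IsCompact K := by
    refine hf.2.1.isCompact.union ?_
    have : s ⁻¹' (tsupport f) = s '' (tsupport f) := by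
      ext y
      constructor
      · intro hy; exact ⟨s y, hy, h.inv y⟩
      · rintro ⟨z, hz, rfl⟩; rw [mem_preimage, h.inv]; exact hz
    rw [this]
    exact hf.2.1.isCompact.image h.smooth.continuous
  have hKm : MeasurableSet K := hK.isClosed.measurableSet
  have hfin : (mu0 : Measure E) K ≠ ⊤ := by
    rw [mu0, withDensity_apply _ hKm]
    have : IntegrableOn (rho0 : E → ℝ) K :=
      contDiff_rho0.continuous.continuousOn.integrableOn_compact hK
    have h2 := this.2
    rw [hasFiniteIntegral_iff_ofReal (Eventually.of_forall fun y => (rho0_pos y).le)] at h2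
    exact h2.ne
  set M := ((mu0 : Measure E) K).toReal with hM
  have hM0 : 0 ≤ M := ENNReal.toReal_nonneg
  refine ⟨δ / (2 * (M + 1)), by positivity, ?_⟩
  set e := δ / (2 * (M + 1)) with he
  have he0 : 0 < e := by positivity
  have hb : ∀ y, |polS e s l f y - polG s l f y| ≤ K.indicator (fun _ => 2 * e) y := by
    intro y
    by_cases hy : y ∈ K
    · rw [indicator_of_mem hy]; exact abs_polS_sub_polG he0 h y
    · rw [indicator_of_notMem hy]
      rw [hKd, mem_union, not_or] at hy
      have h1 : f y = 0 := image_eq_zero_of_notMem_tsupport hy.1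
      have h2 : f (s y) = 0 := image_eq_zero_of_notMem_tsupport hy.2
      rw [polS, polG, h1, h2, te_zero he0 (by linarith)]
      simp
  have hi : Integrable (K.indicator (fun _ => 2 * e)) (mu0 : Measure E) :=
    (integrable_indicator_iff hKm).mpr (integrableOn_const hfin)
  calc ∫ y, |polS e s l f y - polG s l f y| ∂(mu0 : Measure E)
      ≤ ∫ y, K.indicator (fun _ => 2 * e) y ∂(mu0 : Measure E) :=
        integral_mono_of_nonneg (Eventually.of_forall fun y => abs_nonneg _) hi
          (Eventually.of_forall hb)
    _ = M * (2 * e) := by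
        rw [integral_indicator hKm, setIntegral_const, smul_eq_mul]; rfl
    _ = δ * (M / (M + 1)) := by rw [he]; field_simp
    _ ≤ δ := by
        refine mul_le_of_le_one_right hδ.le ?_
        rw [div_le_one (by linarith)]; linarith

end pol

/-- Finite lists of polarisations can be realised smoothly without increasing the total
variation. -/
theorem exists_list {L : List (E × ℝ)}
    (hL : ∀ q ∈ L, IsRefl (refl q.1 q.2) (ell q.1 q.2)) {f g : E → ℝ} (hf : Fn f)
    (hf1 : ∀ y, f y ≤ 1) (hg : Measurable g) (hgi : Integrable g (mu0 : Measure E)) {δ : ℝ}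
    (hδ : 0 < δ) :
    Measurable (L.foldr (fun q f => pol q.1 q.2 f) g) ∧
    Integrable (L.foldr (fun q f => pol q.1 q.2 f) g) (mu0 : Measure E) ∧
    ∃ F : E → ℝ, Fn F ∧ (∀ y, F y ≤ 1) ∧ TV0 F ≤ TV0 f ∧
      ∫ y, |F y - L.foldr (fun q f => pol q.1 q.2 f) g y| ∂(mu0 : Measure E)
        ≤ ∫ y, |f y - g y| ∂(mu0 : Measure E) + δ := by
  induction L generalizing δ with
  | nil => exact ⟨hg, hgi, f, hf, hf1, le_rfl, by simp only [List.foldr_nil]; linarith⟩
  | cons q L ih =>
    obtain ⟨h1, h2, F, hF, hF1, hF2, hF3⟩ :=
      ih (fun q hq => hL q (List.mem_cons_of_mem _ hq)) (half_pos hδ)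
    have hq := hL q List.mem_cons_self
    set G := L.foldr (fun q f => pol q.1 q.2 f) g with hG
    have hm : Measurable (pol q.1 q.2 G) := measurable_polG hq h1
    have hi : Integrable (pol q.1 q.2 G) (mu0 : Measure E) := integrable_polG hq h1 h2
    refine ⟨hm, hi, ?_⟩
    obtain ⟨e, he, hpe⟩ := exists_polS hq hF (half_pos hδ)
    refine ⟨polS e (refl q.1 q.2) (ell q.1 q.2) F, fn_polS he hq hF, polS_le_one he hF1,
      (TV0_polS_le he hq hF).trans hF2, ?_⟩
    have i0 : Integrable (polG (refl q.1 q.2) (ell q.1 q.2) F) (mu0 : Measure E) :=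
      integrable_polG hq (fn_measurable hF) (fn_integrable hF)
    have i1 := ((fn_integrable (fn_polS he hq hF)).sub i0).abs
    have i2 := (i0.sub hi).abs
    simp only [Pi.sub_apply] at i1 i2
    have h3 := integral_polG_sub_le hq (fn_measurable hF) h1 (fn_integrable hF) h2
    calc ∫ y, |polS e (refl q.1 q.2) (ell q.1 q.2) F y
          - (q :: L).foldr (fun q f => pol q.1 q.2 f) g y| ∂(mu0 : Measure E)
        ≤ ∫ y, (|polS e (refl q.1 q.2) (ell q.1 q.2) F y
            - polG (refl q.1 q.2) (ell q.1 q.2) F y|
          + |polG (refl q.1 q.2) (ell q.1 q.2) F y - pol q.1 q.2 G y|) ∂(mu0 : Measure E) := by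
          refine integral_mono_of_nonneg (Eventually.of_forall fun y => abs_nonneg _) (i1.add i2)
            (Eventually.of_forall fun y => ?_)
          simp only [List.foldr_cons]
          exact abs_sub_le _ _ _
      _ ≤ δ / 2 + (∫ y, |f y - g y| ∂(mu0 : Measure E) + δ / 2) := by
          rw [integral_add i1 i2]
          refine add_le_add hpe (le_trans ?_ hF3)
          exact h3
      _ = _ := by ring

end

end Pool.Agent.Work.MP_3b24f6_gt
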