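import Pool.Agent.Work.MP_3b24f6_gt.H0.Moll

/-!
# Smooth polarisation

`polS` is a smooth version of two-point symmetrisation: it keeps the class of smooth compactly
supported functions with values in `[0, 1]` and does not increase the total variation.
-/

set_option autoImplicit false
set_option linter.unusedSectionVars false

open MeasureTheory Set Filter Topology
open scoped ContDiff InnerProductSpace

namespace Pool.Agent.Work.MP_3b24f6_gt

noncomputable section

namespace PS

/-! ### the profile -/

/-- A smooth version of `max t 0 `. -/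
def th (t : ℝ) : ℝ := ∫ x in (0 : ℝ)..t, Real.smoothTransition (x - 1)

theorem continuous_st : Continuous fun x : ℝ => Real.smoothTransition (x - 1) :=
  Real.smoothTransition.continuous.comp (by fun_prop)

theorem hasDerivAt_th (t : ℝ) : HasDerivAt th (Real.smoothTransition (t - 1)) t :=
  intervalIntegral.integral_hasDerivAt_right (continuous_st.intervalIntegrable _ _)
    (continuous_st.stronglyMeasurableAtFilter _ _) continuous_st.continuousAt

theorem contDiff_th : ContDiff ℝ ∞ th := by
  rw [contDiff_infty_iff_deriv]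
  refine ⟨fun t => (hasDerivAt_th t).differentiableAt, ?_⟩
  have : deriv th = fun t => Real.smoothTransition (t - 1) := by
    funext t; exact (hasDerivAt_th t).deriv
  rw [this]
  exact Real.smoothTransition.contDiff.comp (by fun_prop)

theorem th_zero {t : ℝ} (ht : t ≤ 1) : th t = 0 := by
  have : ∀ x ∈ uIcc (0 : ℝ) t, Real.smoothTransition (x - 1) = 0 := by
    intro x hx
    refine Real.smoothTransition.zero_of_nonpos ?_
    have : x ≤ 1 := by
      rcases le_total 0 t with h | h
      · rw [uIcc_of_le h] at hx; linarith [hx.2]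
      · rw [uIcc_of_ge h] at hx; linarith [hx.2]
    linarith
  unfold th
  rw [intervalIntegral.integral_congr (g := fun _ => (0 : ℝ)) this]
  simp

theorem th_nonneg (t : ℝ) : 0 ≤ th t := by
  rcases le_total t 1 with h | h
  · rw [th_zero h]
  · exact intervalIntegral.integral_nonneg (by linarith) fun x _ => Real.smoothTransition.nonneg _

theorem th_le {t : ℝ} (ht : 0 ≤ t) : th t ≤ t := by
  have h : th t ≤ ∫ _ in (0 : ℝ)..t, (1 : ℝ) :=
    intervalIntegral.integral_mono_on ht (continuous_st.intervalIntegrable _ _)
      (by simp) fun x _ => Real.smoothTransition.le_one _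
  simpa using h

theorem le_th (t : ℝ) : t - 2 ≤ th t := by
  rcases le_total t 2 with h | h
  · linarith [th_nonneg t]
  · have h1 : (∫ x in (0 : ℝ)..2, Real.smoothTransition (x - 1))
        + (∫ x in (2 : ℝ)..t, Real.smoothTransition (x - 1)) = th t :=
      intervalIntegral.integral_add_adjacent_intervals (continuous_st.intervalIntegrable _ _)
        (continuous_st.intervalIntegrable _ _)
    have h2 : (∫ x in (2 : ℝ)..t, Real.smoothTransition (x - 1)) = ∫ _ in (2 : ℝ)..t, (1 : ℝ) := by
      refine intervalIntegral.integral_congr fun x hx => ?_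
      rw [uIcc_of_le h] at hx
      exact Real.smoothTransition.one_of_one_le (by linarith [hx.1])
    have h3 : 0 ≤ ∫ x in (0 : ℝ)..2, Real.smoothTransition (x - 1) :=
      intervalIntegral.integral_nonneg (by norm_num) fun x _ => Real.smoothTransition.nonneg _
    rw [h2, intervalIntegral.integral_const, smul_eq_mul, mul_one] at h1
    linarith

/-- The profile at scale `e`. -/
def te (e t : ℝ) : ℝ := e * th (t / e)

/-- Its derivative. -/
def td (e t : ℝ) : ℝ := Real.smoothTransition (t / e - 1)

variable {e : ℝ}

theorem td_nonneg (e t : ℝ) : 0 ≤ td e t := Real.smoothTransition.nonneg _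
theorem td_le_one (e t : ℝ) : td e t ≤ 1 := Real.smoothTransition.le_one _

theorem hasDerivAt_te (he : 0 < e) (t : ℝ) : HasDerivAt (te e) (td e t) t := by
  have h := ((hasDerivAt_th (t / e)).comp t ((hasDerivAt_id t).div_const e)).const_mul e
  refine h.congr_deriv ?_
  unfold td
  field_simp

theorem contDiff_te (e : ℝ) : ContDiff ℝ ∞ (te e) :=
  contDiff_const.mul (contDiff_th.comp (contDiff_id.div_const e))

theorem continuous_td (e : ℝ) : Continuous (td e) :=
  Real.smoothTransition.continuous.comp (by fun_prop)

theorem te_zero (he : 0 < e) {t : ℝ} (ht : t ≤ e) : te e t = 0 := by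
  rw [te, th_zero, mul_zero]
  rw [div_le_one he]; exact ht

theorem te_nonneg (he : 0 < e) (t : ℝ) : 0 ≤ te e t := mul_nonneg he.le (th_nonneg _)

theorem te_le (he : 0 < e) (t : ℝ) : te e t ≤ max t 0 := by
  rcases le_total t 0 with h | h
  · rw [te_zero he (by linarith)]; exact le_max_right _ _
  · refine le_trans ?_ (le_max_left _ _)
    have := th_le (div_nonneg h he.le)
    unfold te
    calc e * th (t / e) ≤ e * (t / e) := mul_le_mul_of_nonneg_left this he.le
      _ = t := by field_simp

theorem le_te (he : 0 < e) (t : ℝ) : max t 0 - 2 * e ≤ te e t := by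
  rcases le_total t 0 with h | h
  · rw [max_eq_right h]; linarith [te_nonneg he t]
  · rw [max_eq_left h]
    have := le_th (t / e)
    unfold te
    calc t - 2 * e = e * (t / e - 2) := by field_simp
      _ ≤ e * th (t / e) := mul_le_mul_of_nonneg_left this he.le

end PS

open PS Mol0

variable {E : Type*} [NormedAddCommGroup E] [InnerProductSpace ℝ E] [FiniteDimensional ℝ E]
  [MeasurableSpace E] [BorelSpace E]

/-- What we need from a hyperbolic reflection `s` with mirror `l = 0`. -/
structure IsRefl (s : E → E) (l : E → ℝ) : Prop where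
  smooth : ContDiff ℝ ∞ s
  cont : Continuous l
  inv : ∀ y, s (s y) = y
  l_s : ∀ y, l (s y) = - l y
  fix : ∀ y, l y = 0 → s y = y
  mp : MeasurePreserving s (mu0 : Measure E) mu0
  an : ∀ (f : E → ℝ) (y : E), ContDiff ℝ ∞ f →
    an0 y (gradient (fun z => f (s z)) y) = an0 (s y) (gradient f (s y))

/-- Smooth polarisation. -/
def polS (e : ℝ) (s : E → E) (l : E → ℝ) (f : E → ℝ) (y : E) : ℝ :=
  if l y < 0 then f y + te e (f (s y) - f y) else f y - te e (f y - f (s y))

/-- The weight. -/
def polT (e : ℝ) (s : E → E) (l : E → ℝ) (f : E → ℝ) (y : E) : ℝ :=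
  if l y < 0 then td e (f (s y) - f y) else td e (f y - f (s y))

section pol
variable {e : ℝ} {s : E → E} {l : E → ℝ} {f : E → ℝ}

theorem polS_near (he : 0 < e) (h : IsRefl s l) (hf : Continuous f) {y : E} (hy : l y = 0) :
    ∀ᶠ z in 𝓝 y, polS e s l f z = f z := by
  have hc : Continuous fun z => f (s z) - f z := (hf.comp h.smooth.continuous).sub hf
  have h0 : f (s y) - f y = 0 := by rw [h.fix y hy, sub_self]
  have h1 : ∀ᶠ z in 𝓝 y, f (s z) - f z < e := by
    refine (hc.tendsto y).eventually (gt_mem_nhds ?_); rw [h0]; exact he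
  have h2 : ∀ᶠ z in 𝓝 y, -e < f (s z) - f z := by
    refine (hc.tendsto y).eventually (lt_mem_nhds ?_); rw [h0]; linarith
  filter_upwards [h1, h2] with z h1 h2
  unfold polS
  split_ifs
  · rw [te_zero he h1.le, add_zero]
  · rw [te_zero he (by linarith), sub_zero]

theorem hasFDerivAt_polS (he : 0 < e) (h : IsRefl s l) (hf : ContDiff ℝ ∞ f) (y : E) :
    HasFDerivAt (polS e s l f) ((1 - polT e s l f y) • fderiv ℝ f y
      + polT e s l f y • fderiv ℝ (fun z => f (s z)) y) y := by
  have hfd : HasFDerivAt f (fderiv ℝ f y) y :=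
    (hf.differentiable (by simp)).differentiableAt.hasFDerivAt
  have hgd : HasFDerivAt (fun z => f (s z)) (fderiv ℝ (fun z => f (s z)) y) y :=
    ((hf.comp h.smooth).differentiable (by simp)).differentiableAt.hasFDerivAt
  rcases lt_trichotomy (l y) 0 with hl | hl | hl
  · have hev : ∀ᶠ z in 𝓝 y, polS e s l f z = f z + te e (f (s z) - f z) := by
      filter_upwards [(h.cont.tendsto y).eventually (gt_mem_nhds hl)] with z hz
      unfold polS; rw [if_pos hz]
    have h1 := hfd.add ((hasDerivAt_te he (f (s y) - f y)).comp_hasFDerivAt y (hgd.sub hfd))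
    refine (HasFDerivAt.congr_of_eventuallyEq ?_ hev)
    refine h1.congr_fderiv ?_
    rw [polT, if_pos hl]
    module
  · have hev := polS_near he h hf.continuous hl
    refine (HasFDerivAt.congr_of_eventuallyEq ?_ hev)
    have : polT e s l f y = 0 := by
      rw [polT, if_neg (by rw [hl]; exact lt_irrefl _), h.fix y hl, sub_self, td]
      exact Real.smoothTransition.zero_of_nonpos (by simp)
    rw [this]
    refine hfd.congr_fderiv ?_
    module
  · have hev : ∀ᶠ z in 𝓝 y, polS e s l f z = f z - te e (f z - f (s z)) := by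
      filter_upwards [(h.cont.tendsto y).eventually (lt_mem_nhds hl)] with z hz
      unfold polS; rw [if_neg (not_lt.mpr hz.le)]
    have h1 := hfd.sub ((hasDerivAt_te he (f y - f (s y))).comp_hasFDerivAt y (hfd.sub hgd))
    refine (HasFDerivAt.congr_of_eventuallyEq ?_ hev)
    refine h1.congr_fderiv ?_
    rw [polT, if_neg (not_lt.mpr hl.le)]
    module

theorem contDiff_polS (he : 0 < e) (h : IsRefl s l) (hf : ContDiff ℝ ∞ f) :
    ContDiff ℝ ∞ (polS e s l f) := by
  rw [contDiff_iff_contDiffAt]
  intro y
  have hg : ContDiff ℝ ∞ (fun z => f (s z)) := hf.comp h.smooth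
  rcases lt_trichotomy (l y) 0 with hl | hl | hl
  · have hev : ∀ᶠ z in 𝓝 y, polS e s l f z = f z + te e (f (s z) - f z) := by
      filter_upwards [(h.cont.tendsto y).eventually (gt_mem_nhds hl)] with z hz
      unfold polS; rw [if_pos hz]
    exact (hf.add ((contDiff_te e).comp (hg.sub hf))).contDiffAt.congr_of_eventuallyEq hev
  · exact hf.contDiffAt.congr_of_eventuallyEq (polS_near he h hf.continuous hl)
  · have hev : ∀ᶠ z in 𝓝 y, polS e s l f z = f z - te e (f z - f (s z)) := by
      filter_upwards [(h.cont.tendsto y).eventually (lt_mem_nhds hl)] with z hz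
      unfold polS; rw [if_neg (not_lt.mpr hz.le)]
    exact (hf.sub ((contDiff_te e).comp (hf.sub hg))).contDiffAt.congr_of_eventuallyEq hev

theorem polT_s (h : IsRefl s l) (y : E) : polT e s l f (s y) = polT e s l f y := by
  unfold polT
  rw [h.inv, h.l_s]
  rcases lt_trichotomy (l y) 0 with hl | hl | hl
  · rw [if_neg (by linarith), if_pos hl]
  · rw [hl, neg_zero, if_neg (lt_irrefl _), if_neg (lt_irrefl _), h.fix y hl]
  · rw [if_pos (by linarith), if_neg (by linarith)]

theorem polT_nonneg (y : E) : 0 ≤ polT e s l f y := by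
  unfold polT; split_ifs <;> exact td_nonneg _ _

theorem polT_le_one (y : E) : polT e s l f y ≤ 1 := by
  unfold polT; split_ifs <;> exact td_le_one _ _

theorem polS_mem (he : 0 < e) (y : E) :
    min (f y) (f (s y)) ≤ polS e s l f y ∧ polS e s l f y ≤ max (f y) (f (s y)) := by
  unfold polS
  split_ifs
  · have h1 := te_nonneg he (f (s y) - f y)
    have h2 := te_le he (f (s y) - f y)
    refine ⟨le_trans (min_le_left _ _) (by linarith), ?_⟩
    rcases le_total (f (s y) - f y) 0 with h | h
    · rw [max_eq_right h] at h2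
      exact le_trans (by linarith) (le_max_left _ _)
    · rw [max_eq_left h] at h2
      exact le_trans (by linarith) (le_max_right _ _)
  · have h1 := te_nonneg he (f y - f (s y))
    have h2 := te_le he (f y - f (s y))
    refine ⟨?_, le_trans (by linarith) (le_max_left _ _)⟩
    rcases le_total (f y - f (s y)) 0 with h | h
    · rw [max_eq_right h] at h2
      exact le_trans (min_le_left _ _) (by linarith)
    · rw [max_eq_left h] at h2
      exact le_trans (min_le_right _ _) (by linarith)

theorem fn_polS (he : 0 < e) (h : IsRefl s l) (hf : Fn f) : Fn (polS e s l f) := by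
  refine ⟨contDiff_polS he h hf.1, ?_, fun y => ?_⟩
  · have hK : IsCompact (tsupport f ∪ s ⁻¹' (tsupport f)) := by
      refine hf.2.1.isCompact.union ?_
      have : s ⁻¹' (tsupport f) = s '' (tsupport f) := by
        ext y
        constructor
        · intro hy; exact ⟨s y, hy, h.inv y⟩
        · rintro ⟨z, hz, rfl⟩; rw [mem_preimage, h.inv]; exact hz
      rw [this]
      exact hf.2.1.isCompact.image h.smooth.continuous
    refine HasCompactSupport.intro hK fun y hy => ?_
    rw [mem_union, not_or] at hy
    have h1 : f y = 0 := image_eq_zero_of_notMem_tsupport hy.1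
    have h2 : f (s y) = 0 := image_eq_zero_of_notMem_tsupport hy.2
    have h3 := polS_mem (e := e) (s := s) (l := l) (f := f) he y
    rw [h1, h2] at h3
    simp at h3
    linarith [h3.1, h3.2]
  · exact le_trans (le_min (hf.2.2 _) (hf.2.2 _)) (polS_mem he y).1

theorem polS_le_one (he : 0 < e) (hf : ∀ y, f y ≤ 1) (y : E) : polS e s l f y ≤ 1 :=
  (polS_mem he y).2.trans (max_le (hf _) (hf _))

omit [MeasurableSpace E] [BorelSpace E] in
theorem an0_add_le (y ξ η : E) : an0 y (ξ + η) ≤ an0 y ξ + an0 y η := by
  have h := abs_inner_le0 y (Cop0 y η) ξ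
  rw [mg0_Cop0, ← an0_sq, Real.sqrt_sq (an0_nonneg y η)] at h
  have h1 : an0 y (ξ + η) ^ 2 ≤ (an0 y ξ + an0 y η) ^ 2 := by
    have e1 : an0 y (ξ + η) ^ 2 = an0 y ξ ^ 2 + 2 * ⟪ξ, Cop0 y η⟫_ℝ + an0 y η ^ 2 := by
      rw [an0_sq, an0_sq, an0_sq, map_add, inner_add_left, inner_add_right, inner_add_right]
      have e2 : ⟪Cop0 y ξ, η⟫_ℝ = ⟪ξ, Cop0 y η⟫_ℝ := by
        rw [Cop0_apply, Cop0_apply, inner_add_left, inner_add_right, real_inner_smul_left,
          inner_smul_right, real_inner_comm ξ y]
        ring
      have e3 : ⟪Cop0 y η, ξ⟫_ℝ = ⟪ξ, Cop0 y η⟫_ℝ := real_inner_comm _ _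
      rw [e2, e3]
      ring
    rw [e1]
    nlinarith [le_abs_self ⟪ξ, Cop0 y η⟫_ℝ]
  exact abs_le_of_sq_le_sq' h1 (add_nonneg (an0_nonneg _ _) (an0_nonneg _ _)) |>.2

omit [MeasurableSpace E] [BorelSpace E] in
theorem an0_smul {c : ℝ} (hc : 0 ≤ c) (y ξ : E) : an0 y (c • ξ) = c * an0 y ξ := by
  unfold an0
  rw [norm_smul, real_inner_smul_right, mul_pow, mul_pow, Real.norm_eq_abs, sq_abs, ← mul_add,
    Real.sqrt_mul (sq_nonneg c), Real.sqrt_sq hc]

theorem gradient_polS (he : 0 < e) (h : IsRefl s l) (hf : ContDiff ℝ ∞ f) (y : E) :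
    gradient (polS e s l f) y = (1 - polT e s l f y) • gradient f y
      + polT e s l f y • gradient (fun z => f (s z)) y := by
  unfold gradient
  rw [(hasFDerivAt_polS he h hf y).fderiv, map_add, map_smul, map_smul]

theorem TV0_polS_le (he : 0 < e) (h : IsRefl s l) (hf : Fn f) :
    TV0 (polS e s l f) ≤ TV0 f := by
  set F : E → ℝ := fun y => an0 y (gradient f y) with hF
  set T : E → ℝ := fun y => polT e s l f y with hT
  have hgc : Continuous (fun y => gradient f y) := (AreaAux.contDiff_gradient hf.1).continuous
  have hFc : Continuous F := continuous_an0.comp (continuous_id.prodMk hgc)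
  have hFs : HasCompactSupport F := by
    refine (Mol.hcs_gradient hf.2.1).mono fun y hy => ?_
    rw [Function.mem_support] at hy ⊢
    intro h0
    apply hy
    simp only [hF]
    rw [h0]
    simp [an0]
  have hFi : Integrable F (mu0 : Measure E) := by
    rw [integrable_mu0_iff]
    exact (contDiff_rho0.continuous.mul hFc).integrable_of_hasCompactSupport hFs.mul_left
  have hF0 : ∀ y, 0 ≤ F y := fun y => an0_nonneg _ _
  have hTm : Measurable T := by
    have hc1 : Continuous fun z => f (s z) - f z :=
      (hf.1.continuous.comp h.smooth.continuous).sub hf.1.continuous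
    have hc2 : Continuous fun z => f z - f (s z) :=
      hf.1.continuous.sub (hf.1.continuous.comp h.smooth.continuous)
    exact Measurable.ite (measurableSet_lt h.cont.measurable measurable_const)
      ((continuous_td e).comp hc1).measurable ((continuous_td e).comp hc2).measurable
  have hmeq : MeasurableEmbedding s := by
    have hinj : Function.Injective s := fun a b hab => by rw [← h.inv a, hab, h.inv]
    exact h.smooth.continuous.measurableEmbedding hinj
  have hFsi : Integrable (fun y => F (s y)) (mu0 : Measure E) :=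
    (h.mp.integrable_comp_emb hmeq).mpr hFi
  have hTb : ∀ y, ‖T y‖ ≤ 1 := fun y => by
    rw [Real.norm_eq_abs, abs_of_nonneg (polT_nonneg y)]; exact polT_le_one y
  have i1 : Integrable (fun y => (1 - T y) * F y) (mu0 : Measure E) := by
    refine hFi.bdd_mul (c := 1) (measurable_const.sub hTm).aestronglyMeasurable
      (Eventually.of_forall fun y => ?_)
    rw [Real.norm_eq_abs, abs_of_nonneg (by linarith [polT_le_one (e := e) (s := s) (l := l) (f := f) y])]
    linarith [polT_nonneg (e := e) (s := s) (l := l) (f := f) y]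
  have i2 : Integrable (fun y => T y * F (s y)) (mu0 : Measure E) :=
    hFsi.bdd_mul (c := 1) hTm.aestronglyMeasurable (Eventually.of_forall hTb)
  have i3 : Integrable (fun y => T y * F y) (mu0 : Measure E) :=
    hFi.bdd_mul (c := 1) hTm.aestronglyMeasurable (Eventually.of_forall hTb)
  have e1 : ∫ y, T y * F (s y) ∂(mu0 : Measure E) = ∫ y, T y * F y ∂(mu0 : Measure E) := by
    rw [← h.mp.integral_comp hmeq (fun y => T y * F y)]
    refine integral_congr_ae (Eventually.of_forall fun y => ?_)
    simp only [hT]
    rw [polT_s h]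
  have hle : ∀ y, an0 y (gradient (polS e s l f) y) ≤ (1 - T y) * F y + T y * F (s y) := by
    intro y
    rw [gradient_polS he h hf.1]
    refine (an0_add_le _ _ _).trans ?_
    rw [an0_smul (by linarith [polT_le_one (e := e) (s := s) (l := l) (f := f) y]),
      an0_smul (polT_nonneg y), h.an f y hf.1]
  unfold TV0
  calc ∫ y, an0 y (gradient (polS e s l f) y) ∂(mu0 : Measure E)
      ≤ ∫ y, ((1 - T y) * F y + T y * F (s y)) ∂(mu0 : Measure E) :=
        integral_mono_of_nonneg (Eventually.of_forall fun y => an0_nonneg _ _) (i1.add i2)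
          (Eventually.of_forall hle)
    _ = ∫ y, (1 - T y) * F y ∂(mu0 : Measure E) + ∫ y, T y * F y ∂(mu0 : Measure E) := by
        rw [integral_add i1 i2, e1]
    _ = ∫ y, F y ∂(mu0 : Measure E) := by
        rw [← integral_add i1 i3]
        refine integral_congr_ae (Eventually.of_forall fun y => ?_)
        simp only
        ring

end pol

end

end Pool.Agent.Work.MP_3b24f6_gt
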